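import Mathlib

-- part Pool.Agent.P.MP_719a5e_nt.Ana
section

set_option autoImplicit false

namespace Pool.Agent.P.MP_719a5e_nt

open Filter Topology Polynomial

noncomputable def kap (n : ℕ) : ℝ := (Nat.centralBinom n : ℝ) / 4 ^ n

lemma kap_zero : kap 0 = 1 := by simp [kap]

lemma kap_succ (n : ℕ) : kap (n + 1) = kap n * (2 * n + 1) / (2 * (n + 1)) := by
  have h : ((n : ℝ) + 1) * (Nat.centralBinom (n + 1) : ℝ) = 2 * (2 * n + 1) * Nat.centralBinom n := by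
    exact_mod_cast Nat.succ_mul_centralBinom_succ n
  have hn : (n : ℝ) + 1 ≠ 0 := by positivity
  have h2 : (Nat.centralBinom (n + 1) : ℝ) = 2 * (2 * n + 1) * Nat.centralBinom n / (n + 1) := by
    rw [← h]; field_simp
  unfold kap
  rw [h2]; field_simp; ring

noncomputable def psi (w : ℝ) : ℕ → ℝ → ℝ
  | 0 => fun _ => 0
  | n + 1 => fun τ => (τ / (τ ^ 2 + w) ^ (n + 1) + (2 * n + 1) * psi w n τ) / (2 * (n + 1) * w)

lemma psi_deriv (w : ℝ) (hw : 0 < w) (n : ℕ) (τ : ℝ) :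
    HasDerivAt (psi w n) (1 / (τ ^ 2 + w) ^ (n + 1) - kap n / w ^ n / (τ ^ 2 + w)) τ := by
  have hy : τ ^ 2 + w ≠ 0 := by positivity
  induction n with
  | zero =>
    have : 1 / (τ ^ 2 + w) ^ (0 + 1) - kap 0 / w ^ 0 / (τ ^ 2 + w) = 0 := by simp [kap_zero]
    rw [this]
    exact hasDerivAt_const τ 0
  | succ n ih =>
    have h1 : HasDerivAt (fun τ : ℝ => τ ^ 2 + w) (2 * τ) τ := by
      simpa using ((hasDerivAt_pow 2 τ).add_const w)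
    have h2 := h1.pow (n + 1)
    have h3 := (hasDerivAt_id τ).div h2 (pow_ne_zero _ hy)
    have h4 := (h3.add (ih.const_mul (2 * (n : ℝ) + 1))).div_const (2 * ((n : ℝ) + 1) * w)
    have e : (1 / (τ ^ 2 + w) ^ (n + 1 + 1) - kap (n + 1) / w ^ (n + 1) / (τ ^ 2 + w)) =
        ((1 * (τ ^ 2 + w) ^ (n + 1) - τ * (((n + 1 : ℕ) : ℝ) * (τ ^ 2 + w) ^ (n + 1 - 1) * (2 * τ))) /
            ((τ ^ 2 + w) ^ (n + 1)) ^ 2 +
          (2 * (n : ℝ) + 1) * (1 / (τ ^ 2 + w) ^ (n + 1) - kap n / w ^ n / (τ ^ 2 + w))) /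
          (2 * ((n : ℝ) + 1) * w) := by
      rw [kap_succ]
      have hw' : w = (τ ^ 2 + w) - τ ^ 2 := by ring
      have hn : (n : ℝ) + 1 ≠ 0 := by positivity
      simp only [Nat.add_sub_cancel]
      push_cast
      field_simp
      ring
    rw [e]
    exact h4

lemma psi_zero (w : ℝ) (n : ℕ) : psi w n 0 = 0 := by
  induction n with
  | zero => rfl
  | succ n ih => simp [psi, ih]

lemma psi_tendsto (w : ℝ) (hw : 0 < w) (n : ℕ) : Tendsto (psi w n) atTop (𝓝 0) := by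
  induction n with
  | zero => exact tendsto_const_nhds
  | succ n ih =>
    have h1 : Tendsto (fun τ : ℝ => τ / (τ ^ 2 + w) ^ (n + 1)) atTop (𝓝 0) := by
      refine tendsto_of_tendsto_of_tendsto_of_le_of_le' tendsto_const_nhds tendsto_inv_atTop_zero ?_ ?_
      · filter_upwards [eventually_ge_atTop (1 : ℝ)] with τ hτ
        positivity
      · filter_upwards [eventually_ge_atTop (1 : ℝ)] with τ hτ
        have hy : 1 ≤ τ ^ 2 + w := by nlinarith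
        have h2 : τ ^ 2 + w ≤ (τ ^ 2 + w) ^ (n + 1) := le_self_pow₀ hy (by omega)
        rw [div_le_iff₀ (by positivity), inv_mul_eq_div, le_div_iff₀ (by positivity)]
        nlinarith
    have h2 := (h1.add (ih.const_mul (2 * (n : ℝ) + 1))).div_const (2 * ((n : ℝ) + 1) * w)
    simp only [mul_zero, add_zero, zero_div] at h2
    exact h2

lemma psi_poly (w : ℝ) (hw : 0 < w) (n : ℕ) :
    ∃ V : ℝ[X], ∀ τ : ℝ, psi w n τ = τ * V.eval (τ ^ 2) / (τ ^ 2 + w) ^ n := by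
  induction n with
  | zero => exact ⟨0, fun τ => by simp [psi]⟩
  | succ n ih =>
    obtain ⟨V, hV⟩ := ih
    refine ⟨C (1 / (2 * ((n : ℝ) + 1) * w)) * (1 + C (2 * (n : ℝ) + 1) * (X + C w) * V), fun τ => ?_⟩
    have hy : τ ^ 2 + w ≠ 0 := by positivity
    have hn : (n : ℝ) + 1 ≠ 0 := by positivity
    simp only [psi, hV, eval_mul, eval_C, eval_add, eval_one, eval_X]
    field_simp
    ring

lemma atan_deriv (w : ℝ) (hw : 0 < w) (τ : ℝ) :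
    HasDerivAt (fun τ => Real.arctan (τ / √w) / √w) (1 / (τ ^ 2 + w)) τ := by
  have hs : 0 < √w := Real.sqrt_pos.mpr hw
  have h1 : HasDerivAt (fun τ : ℝ => τ / √w) (1 / √w) τ := (hasDerivAt_id τ).div_const _
  have h2 := (h1.arctan).div_const √w
  have e : 1 / (τ ^ 2 + w) = 1 / (1 + (τ / √w) ^ 2) * (1 / √w) / √w := by
    have hq : √w ^ 2 = w := Real.sq_sqrt hw.le
    field_simp
    rw [hq]; ring
  rw [e]; exact h2

lemma atan_tendsto (w : ℝ) (hw : 0 < w) :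
    Tendsto (fun τ => Real.arctan (τ / √w) / √w) atTop (𝓝 (Real.pi / 2 / √w)) := by
  have hs : 0 < √w := Real.sqrt_pos.mpr hw
  have h1 : Tendsto (fun τ : ℝ => τ / √w) atTop atTop := tendsto_id.atTop_div_const hs
  have h2 : Tendsto Real.arctan atTop (𝓝 (Real.pi / 2)) :=
    Real.tendsto_arctan_atTop.mono_right nhdsWithin_le_nhds
  exact (h2.comp h1).div_const _

lemma lim_nonneg (Φ g : ℝ → ℝ) (L : ℝ) (hd : ∀ τ, HasDerivAt Φ (g τ) τ) (hg : ∀ τ, 0 ≤ g τ)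
    (h0 : Φ 0 = 0) (hl : Tendsto Φ atTop (𝓝 L)) : 0 ≤ L := by
  have hm : Monotone Φ := monotone_of_deriv_nonneg (fun τ => (hd τ).differentiableAt)
    (fun τ => by rw [(hd τ).deriv]; exact hg τ)
  refine ge_of_tendsto hl ?_
  filter_upwards [eventually_ge_atTop (0 : ℝ)] with τ hτ
  rw [← h0]; exact hm hτ

lemma lemA (w1 w2 w3 b K ρ1 ρ2 ρ3 : ℝ) (h1 : 0 < w1) (h2 : 0 < w2) (h3 : 0 < w3) (hb : 0 < b)
    (Ω g : ℝ → ℝ)
    (hd : ∀ τ, HasDerivAt Ω (g τ - (ρ1 / (τ ^ 2 + w1) + ρ2 / (τ ^ 2 + w2) + ρ3 / (τ ^ 2 + w3))) τ)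
    (h0 : Ω 0 = 0) (hl : Tendsto Ω atTop (𝓝 0)) (hg : ∀ τ, 0 ≤ g τ)
    (hK : ∀ τ, g τ ≤ K / (τ ^ 2 + b)) :
    0 ≤ ρ1 / √w1 + ρ2 / √w2 + ρ3 / √w3 ∧ ρ1 / √w1 + ρ2 / √w2 + ρ3 / √w3 ≤ K / √b := by
  set Φ : ℝ → ℝ := fun τ => Ω τ + (ρ1 * (Real.arctan (τ / √w1) / √w1)
    + ρ2 * (Real.arctan (τ / √w2) / √w2) + ρ3 * (Real.arctan (τ / √w3) / √w3)) with hΦ
  have dΦ : ∀ τ, HasDerivAt Φ (g τ) τ := by
    intro τ
    have := (hd τ).add ((((atan_deriv w1 h1 τ).const_mul ρ1).add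
      ((atan_deriv w2 h2 τ).const_mul ρ2)).add ((atan_deriv w3 h3 τ).const_mul ρ3))
    have e : g τ = g τ - (ρ1 / (τ ^ 2 + w1) + ρ2 / (τ ^ 2 + w2) + ρ3 / (τ ^ 2 + w3)) +
        (ρ1 * (1 / (τ ^ 2 + w1)) + ρ2 * (1 / (τ ^ 2 + w2)) + ρ3 * (1 / (τ ^ 2 + w3))) := by ring
    rw [e]; exact this
  have Φ0 : Φ 0 = 0 := by simp [hΦ, h0]
  have lΦ : Tendsto Φ atTop (𝓝 (0 + (ρ1 * (Real.pi / 2 / √w1) + ρ2 * (Real.pi / 2 / √w2)
      + ρ3 * (Real.pi / 2 / √w3)))) :=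
    hl.add ((((atan_tendsto w1 h1).const_mul ρ1).add ((atan_tendsto w2 h2).const_mul ρ2)).add
      ((atan_tendsto w3 h3).const_mul ρ3))
  have e : 0 + (ρ1 * (Real.pi / 2 / √w1) + ρ2 * (Real.pi / 2 / √w2) + ρ3 * (Real.pi / 2 / √w3))
      = Real.pi / 2 * (ρ1 / √w1 + ρ2 / √w2 + ρ3 / √w3) := by ring
  rw [e] at lΦ
  have hp : 0 < Real.pi / 2 := by positivity
  have A := lim_nonneg Φ g _ dΦ hg Φ0 lΦ
  have B := lim_nonneg (fun τ => K * (Real.arctan (τ / √b) / √b) - Φ τ)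
    (fun τ => K * (1 / (τ ^ 2 + b)) - g τ) _
    (fun τ => ((atan_deriv b hb τ).const_mul K).sub (dΦ τ))
    (fun τ => by have := hK τ; rw [mul_one_div]; linarith) (by simp [Φ0])
    (((atan_tendsto b hb).const_mul K).sub lΦ)
  refine ⟨(mul_nonneg_iff_of_pos_left hp).mp A, ?_⟩
  have e2 : K * (Real.pi / 2 / √b) - Real.pi / 2 * (ρ1 / √w1 + ρ2 / √w2 + ρ3 / √w3)
      = Real.pi / 2 * (K / √b - (ρ1 / √w1 + ρ2 / √w2 + ρ3 / √w3)) := by ring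
  rw [e2] at B
  have := (mul_nonneg_iff_of_pos_left hp).mp B
  linarith

lemma lemB (k : ℕ) (e1 e2 e3 : ℝ) (he : e3 ≠ 0) (S B : ℝ[X]) (hB : B.natDegree ≤ 2)
    (hid : X ^ (k + 1) * B = (S + 2 * X * derivative S) * (X ^ 3 + C e1 * X ^ 2 + C e2 * X + C e3)
      - 2 * (k : ℝ[X]) * X * S * (3 * X ^ 2 + 2 * C e1 * X + C e2)) : S = 0 := by
  by_contra hS
  have low : ∀ j, j ≤ k + 1 → X ^ j ∣ S := by
    intro j
    induction j with
    | zero => intro _; simp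
    | succ j ih =>
      intro hj
      obtain ⟨S1, hS1⟩ := ih (by omega)
      obtain ⟨i, hi⟩ : ∃ i, k + 1 = j + (i + 1) := ⟨k - j, by omega⟩
      have hder : X * derivative S = X ^ j * ((j : ℝ[X]) * S1 + X * derivative S1) := by
        rw [hS1, derivative_mul, derivative_X_pow]
        rcases j with _ | j
        · simp
        · simp only [Nat.add_sub_cancel, map_natCast]; push_cast; ring
      have h2 : X ^ j * (X ^ (i + 1) * B) = X ^ j *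
          ((S1 + 2 * ((j : ℝ[X]) * S1 + X * derivative S1)) * (X ^ 3 + C e1 * X ^ 2 + C e2 * X + C e3)
            - 2 * (k : ℝ[X]) * X * S1 * (3 * X ^ 2 + 2 * C e1 * X + C e2)) := by
        rw [← mul_assoc, ← pow_add, ← hi, hid, mul_assoc 2 X, hder]
        rw [hS1]
        ring
      have h3 := mul_left_cancel₀ (pow_ne_zero j X_ne_zero) h2
      have h4 := congrArg (eval 0) h3
      simp at h4
      have h5 : S1.eval 0 = 0 := by
        rcases h4 with h4 | h4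
        · have : (1 + 2 * (j : ℝ)) * S1.eval 0 = 0 := by linarith
          rcases mul_eq_zero.mp this with h | h
          · exfalso; have : (0 : ℝ) < 1 + 2 * j := by positivity
            linarith
          · exact h
        · exact absurd h4 he
      have h6 : X ∣ S1 := by rw [X_dvd_iff, coeff_zero_eq_eval_zero]; exact h5
      rw [hS1, pow_succ]
      exact mul_dvd_mul_left _ h6
  have hdeg : k + 1 ≤ S.natDegree := by
    have := natDegree_le_of_dvd (low (k + 1) le_rfl) hS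
    simpa using this
  set d := S.natDegree with hd
  have hz : ∀ i, d < i → S.coeff i = 0 := fun i hi => coeff_eq_zero_of_natDegree_lt hi
  have hL : (X ^ (k + 1) * B).coeff (d + 3) = 0 := by
    apply coeff_eq_zero_of_natDegree_lt
    have := natDegree_mul_le (p := (X : ℝ[X]) ^ (k + 1)) (q := B)
    simp at this
    omega
  have hR : (S + 2 * X * derivative S) * (X ^ 3 + C e1 * X ^ 2 + C e2 * X + C e3)
      - 2 * (k : ℝ[X]) * X * S * (3 * X ^ 2 + 2 * C e1 * X + C e2)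
      = C (1 - 6 * (k : ℝ)) * (S * X ^ 3) + C (e1 * (1 - 4 * k)) * (S * X ^ 2)
        + C (e2 * (1 - 2 * k)) * (S * X ^ 1) + C e3 * S
        + C 2 * (derivative S * X ^ 4) + C (2 * e1) * (derivative S * X ^ 3)
        + C (2 * e2) * (derivative S * X ^ 2) + C (2 * e3) * (derivative S * X ^ 1) := by
    simp only [map_sub, map_mul, map_one, map_natCast, map_ofNat]
    ring
  rw [hid, hR] at hL
  obtain ⟨d', hd'⟩ : ∃ d', d = d' + 1 := ⟨d - 1, by omega⟩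
  have c1 : (S * X ^ 3).coeff (d + 3) = S.coeff d := coeff_mul_X_pow _ _ _
  have c2 : (S * X ^ 2).coeff (d + 3) = 0 := by
    rw [show d + 3 = (d + 1) + 2 by ring, coeff_mul_X_pow]; exact hz _ (by omega)
  have c3 : (S * X ^ 1).coeff (d + 3) = 0 := by
    rw [show d + 3 = (d + 2) + 1 by ring, coeff_mul_X_pow]; exact hz _ (by omega)
  have c4 : S.coeff (d + 3) = 0 := hz _ (by omega)
  have c5 : (derivative S * X ^ 4).coeff (d + 3) = S.coeff d * d := by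
    rw [show d + 3 = d' + 4 by omega, coeff_mul_X_pow, coeff_derivative, hd']; push_cast; ring
  have c6 : (derivative S * X ^ 3).coeff (d + 3) = 0 := by
    rw [coeff_mul_X_pow, coeff_derivative, hz _ (by omega)]; ring
  have c7 : (derivative S * X ^ 2).coeff (d + 3) = 0 := by
    rw [show d + 3 = (d + 1) + 2 by ring, coeff_mul_X_pow, coeff_derivative, hz _ (by omega)]; ring
  have c8 : (derivative S * X ^ 1).coeff (d + 3) = 0 := by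
    rw [show d + 3 = (d + 2) + 1 by ring, coeff_mul_X_pow, coeff_derivative, hz _ (by omega)]; ring
  simp only [coeff_add, coeff_C_mul, c1, c2, c3, c4, c5, c6, c7, c8] at hL
  have hlc : S.coeff d ≠ 0 := leadingCoeff_ne_zero.mpr hS
  have : (1 - 6 * (k : ℝ) + 2 * d) * S.coeff d = 0 := by linarith
  rcases mul_eq_zero.mp this with h | h
  · have h' : (1 - 6 * (k : ℤ) + 2 * d) = 0 := by exact_mod_cast h
    omega
  · exact hlc h

end Pool.Agent.P.MP_719a5e_nt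
end

-- part Pool.Agent.P.MP_719a5e_nt.Node
section

set_option autoImplicit false

namespace Pool.Agent.P.MP_719a5e_nt

open Filter Topology Polynomial

noncomputable def inv1 (d : ℝ) (m : ℕ) : PowerSeries ℝ :=
  PowerSeries.mk fun n => ((m - 1 + n).choose (m - 1) : ℝ) * (-1) ^ n * (1 / d) ^ (m + n)

lemma inv1_mul (d : ℝ) (hd : d ≠ 0) (m : ℕ) (hm : 1 ≤ m) :
    (PowerSeries.X + PowerSeries.C d) ^ m * inv1 d m = 1 := by
  obtain ⟨e, rfl⟩ : ∃ e, m = e + 1 := ⟨m - 1, by omega⟩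
  have h := congrArg (PowerSeries.rescale (-(1 / d)))
    (PowerSeries.mk_add_choose_mul_one_sub_pow_eq_one ℝ e)
  rw [map_mul, map_pow, map_sub, map_one, PowerSeries.rescale_X] at h
  have e1 : inv1 d (e + 1) = PowerSeries.C ((1 / d) ^ (e + 1)) *
      PowerSeries.rescale (-(1 / d)) (PowerSeries.mk fun n => ((e + n).choose e : ℝ)) := by
    ext n
    simp only [inv1, PowerSeries.coeff_mk, PowerSeries.coeff_C_mul, PowerSeries.coeff_rescale,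
      Nat.add_sub_cancel]
    rw [neg_pow (1 / d), pow_add]; ring
  have e2 : (PowerSeries.X + PowerSeries.C d : PowerSeries ℝ) = PowerSeries.C d *
      (1 - PowerSeries.C (-(1 / d)) * PowerSeries.X) := by
    rw [mul_sub, ← mul_assoc, ← map_mul]
    have : d * -(1 / d) = -1 := by field_simp
    rw [this]; simp [add_comm]
  have e3 : (PowerSeries.C d : PowerSeries ℝ) ^ (e + 1) * PowerSeries.C ((1 / d) ^ (e + 1)) = 1 := by
    rw [← map_pow, ← map_mul, ← mul_pow]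
    have : d * (1 / d) = 1 := by field_simp
    rw [this]; simp
  rw [e1, e2, mul_pow]
  calc _ = ((PowerSeries.C d : PowerSeries ℝ) ^ (e + 1) * PowerSeries.C ((1 / d) ^ (e + 1))) *
      (PowerSeries.rescale (-(1 / d)) (PowerSeries.mk fun n => ((e + n).choose e : ℝ)) *
        (1 - PowerSeries.C (-(1 / d)) * PowerSeries.X) ^ (e + 1)) := by ring
    _ = 1 := by rw [e3, h, one_mul]

noncomputable def UU (w d1 d2 : ℝ) (k m1 m2 : ℕ) : PowerSeries ℝ :=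
  (((X + C (-w)) ^ (k + 1) : ℝ[X]) : PowerSeries ℝ) * inv1 d1 m1 * inv1 d2 m2

lemma node_dvd (w d1 d2 : ℝ) (h1 : d1 ≠ 0) (h2 : d2 ≠ 0) (k m m1 m2 : ℕ) (hm1 : 1 ≤ m1)
    (hm2 : 1 ≤ m2) :
    (X + C w) ^ m ∣ X ^ (k + 1) - (X + C (w + d1)) ^ m1 * (X + C (w + d2)) ^ m2 *
      (PowerSeries.trunc m (UU w d1 d2 k m1 m2)).comp (X + C w) := by
  set U := UU w d1 d2 k m1 m2 with hU
  have hA : (PowerSeries.X + PowerSeries.C d1) ^ m1 * (PowerSeries.X + PowerSeries.C d2) ^ m2 * U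
      = (((X + C (-w)) ^ (k + 1) : ℝ[X]) : PowerSeries ℝ) := by
    calc _ = (((X + C (-w)) ^ (k + 1) : ℝ[X]) : PowerSeries ℝ) *
        (((PowerSeries.X + PowerSeries.C d1) ^ m1 * inv1 d1 m1) *
        ((PowerSeries.X + PowerSeries.C d2) ^ m2 * inv1 d2 m2)) := by rw [hU, UU]; ring
      _ = _ := by rw [inv1_mul d1 h1 m1 hm1, inv1_mul d2 h2 m2 hm2]; ring
  have hT : (PowerSeries.X : PowerSeries ℝ) ^ m ∣ U - (PowerSeries.trunc m U : ℝ[X]) := by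
    rw [PowerSeries.X_pow_dvd_iff]
    intro i hi
    simp [PowerSeries.coeff_trunc, hi]
  have hP : (X : ℝ[X]) ^ m ∣ (X + C (-w)) ^ (k + 1) - (X + C d1) ^ m1 * (X + C d2) ^ m2 *
      PowerSeries.trunc m U := by
    rw [Polynomial.X_pow_dvd_iff]
    intro i hi
    rw [← Polynomial.coeff_coe]
    have hd : (PowerSeries.X : PowerSeries ℝ) ^ m ∣ (((X + C (-w)) ^ (k + 1) - (X + C d1) ^ m1 *
        (X + C d2) ^ m2 * PowerSeries.trunc m U : ℝ[X]) : PowerSeries ℝ) := by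
      rw [Polynomial.coe_sub, ← hA]
      simp only [Polynomial.coe_mul, Polynomial.coe_pow, Polynomial.coe_add, Polynomial.coe_X,
        Polynomial.coe_C]
      rw [← mul_sub]
      exact Dvd.dvd.mul_left hT _
    exact PowerSeries.X_pow_dvd_iff.mp hd i hi
  obtain ⟨Q, hQ⟩ := hP
  refine ⟨Q.comp (X + C w), ?_⟩
  have := congrArg (fun P : ℝ[X] => P.comp (X + C w)) hQ
  simp only [sub_comp, mul_comp, pow_comp, add_comp, X_comp, C_comp] at this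
  rw [← this]
  simp only [map_add, map_neg]
  congr 2
  · ring
  · congr 2 <;> ring

lemma node_eval (U : PowerSeries ℝ) (m : ℕ) (y : ℝ) (hy : y ≠ 0) :
    (PowerSeries.trunc m U).eval y / y ^ m
      = ∑ n ∈ Finset.range m, PowerSeries.coeff (m - 1 - n) U / y ^ (n + 1) := by
  have h := PowerSeries.eval₂_trunc_eq_sum_range y (RingHom.id ℝ) m U
  rw [eval₂_id] at h
  rw [h, ← Finset.sum_range_reflect, Finset.sum_div]
  refine Finset.sum_congr rfl fun n hn => ?_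
  have hn' := Finset.mem_range.mp hn
  obtain ⟨e, rfl⟩ : ∃ e, m = e + (n + 1) := ⟨m - (n + 1), by omega⟩
  have : e + (n + 1) - 1 - n = e := by omega
  rw [this, pow_add]
  simp only [RingHom.id_apply]
  field_simp

noncomputable def rho (w : ℝ) (U : PowerSeries ℝ) (m : ℕ) : ℝ :=
  ∑ n ∈ Finset.range m, PowerSeries.coeff (m - 1 - n) U * kap n / w ^ n

lemma node_ana (w : ℝ) (hw : 0 < w) (U : PowerSeries ℝ) (k m : ℕ) (hm : m ≤ k + 1) :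
    ∃ Ω : ℝ → ℝ, (∀ τ, HasDerivAt Ω ((PowerSeries.trunc m U).eval (τ ^ 2 + w) / (τ ^ 2 + w) ^ m
        - rho w U m / (τ ^ 2 + w)) τ) ∧ Ω 0 = 0 ∧ Tendsto Ω atTop (𝓝 0) ∧
      ∃ V : ℝ[X], ∀ τ, Ω τ = τ * V.eval (τ ^ 2) / (τ ^ 2 + w) ^ k := by
  refine ⟨fun τ => ∑ n ∈ Finset.range m, PowerSeries.coeff (m - 1 - n) U * psi w n τ, ?_, ?_, ?_, ?_⟩
  · intro τ
    have hy : τ ^ 2 + w ≠ 0 := by positivity
    have := HasDerivAt.fun_sum (u := Finset.range m) fun n _ =>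
      (psi_deriv w hw n τ).const_mul (PowerSeries.coeff (m - 1 - n) U)
    rw [node_eval U m _ hy, rho, Finset.sum_div, ← Finset.sum_sub_distrib]
    have e : ∑ n ∈ Finset.range m, (PowerSeries.coeff (m - 1 - n) U / (τ ^ 2 + w) ^ (n + 1) -
        PowerSeries.coeff (m - 1 - n) U * kap n / w ^ n / (τ ^ 2 + w)) =
        ∑ n ∈ Finset.range m, PowerSeries.coeff (m - 1 - n) U *
          (1 / (τ ^ 2 + w) ^ (n + 1) - kap n / w ^ n / (τ ^ 2 + w)) :=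
      Finset.sum_congr rfl fun n _ => by ring
    rw [e]; exact this
  · simp [psi_zero]
  · have := tendsto_finsetSum (Finset.range m) fun n _ =>
      (psi_tendsto w hw n).const_mul (PowerSeries.coeff (m - 1 - n) U)
    simpa using this
  · choose V hV using psi_poly w hw
    refine ⟨∑ n ∈ Finset.range m, C (PowerSeries.coeff (m - 1 - n) U) * V n * (X + C w) ^ (k - n),
      fun τ => ?_⟩
    have hy : τ ^ 2 + w ≠ 0 := by positivity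
    rw [eval_finsetSum, Finset.mul_sum, Finset.sum_div]
    refine Finset.sum_congr rfl fun n hn => ?_
    have hn' := Finset.mem_range.mp hn
    obtain ⟨e, rfl⟩ : ∃ e, k = e + n := ⟨k - n, by omega⟩
    rw [hV, Nat.add_sub_cancel, pow_add]
    simp only [eval_mul, eval_C, eval_pow, eval_add, eval_X]
    field_simp

def Gd (a M x : ℝ) : Prop := (∃ z : ℤ, x = a * z) ∧ |x| ≤ M

lemma Gd.sum {ι : Type*} (a M : ℝ) (hM : 0 ≤ M) (s : Finset ι) (f : ι → ℝ) (N : ℕ)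
    (hN : s.card ≤ N) (h : ∀ i ∈ s, Gd a M (f i)) : Gd a (N * M) (∑ i ∈ s, f i) := by
  constructor
  · classical
    have : ∀ i ∈ s, ∃ z : ℤ, f i = a * z := fun i hi => (h i hi).1
    choose! z hz using this
    refine ⟨∑ i ∈ s, z i, ?_⟩
    rw [Finset.sum_congr rfl hz, ← Finset.mul_sum]; push_cast; rfl
  · calc |∑ i ∈ s, f i| ≤ ∑ i ∈ s, |f i| := Finset.abs_sum_le_sum_abs _ _
      _ ≤ s.card • M := Finset.sum_le_card_nsmul _ _ _ fun i hi => (h i hi).2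
      _ = s.card * M := by simp
      _ ≤ N * M := by gcongr

noncomputable def Sc (k : ℕ) (a a' a'' : ℝ) : ℝ :=
  4 ^ k * ((a - a') * (a - a'') * (a' - a'')) ^ (2 * k) / (a * a' * a'') ^ k

lemma term_eq (a a' a'' R : ℝ) (ha : a ≠ 0) (ha' : a' ≠ 0) (ha'' : a'' ≠ 0) (h1 : a - a' ≠ 0)
    (h2 : a - a'' ≠ 0) (hR : R ≠ 0) (g0 n G1 G2 : ℕ) (c cb : ℝ) :
    Sc (g0 + n + G1 + G2) a a' a'' * (c * (R / a) ^ (n + 1 + G1 + G2) *
      (1 / ((a - a') / (a * a'))) ^ (g0 + n + G1 + G2 + G1) *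
      (1 / ((a - a'') / (a * a''))) ^ (g0 + n + G1 + G2 + G2) * (cb / 4 ^ n) / (R / a) ^ n / (R / a))
    = a ^ (g0 + n + G1 + G2) * (c * (4 ^ (g0 + G1 + G2) * cb) * R ^ (G1 + G2) *
      (a' ^ G1 * (a - a') ^ (g0 + n + G2)) * (a'' ^ G2 * (a - a'') ^ (g0 + n + G1)) *
      (a' - a'') ^ (2 * (g0 + n + G1 + G2))) := by
  unfold Sc
  generalize a - a' = x at *
  generalize a - a'' = y at *
  generalize a' - a'' = z at *
  simp only [one_div, inv_div, div_pow, mul_pow, pow_add, two_mul, pow_one]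
  field_simp

end Pool.Agent.P.MP_719a5e_nt
end

-- part Pool.Agent.P.MP_719a5e_nt.Arith
section

set_option autoImplicit false

namespace Pool.Agent.P.MP_719a5e_nt

open Filter Topology Polynomial

lemma mixed_le (x y q : ℤ) (hx : 0 < x) (hy : 0 < y) (hxq : x ≤ q) (hyq : y ≤ q) (i j : ℕ) :
    |y ^ i * (x - y) ^ j| ≤ q ^ (i + j) := by
  rw [abs_mul, abs_pow, abs_pow, abs_of_pos hy, pow_add]
  have : |x - y| ≤ q := by rw [abs_le]; constructor <;> linarith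
  have : 0 < q := by linarith
  gcongr

lemma term_int (a a' a'' b q : ℤ) (ha : 0 < a) (ha' : 0 < a') (ha'' : 0 < a'') (hq : a ≤ q)
    (hq' : a' ≤ q) (hq'' : a'' ≤ q) (hb : 0 < b) (g0 n G1 G2 k : ℕ) (hk : k = g0 + n + G1 + G2)
    (c : ℤ) (hc : |c| ≤ 2 ^ (5 * k)) :
    |a ^ k * (c * (4 ^ (g0 + G1 + G2) * (Nat.centralBinom n : ℤ)) * (a * b + 1) ^ (G1 + G2) *
      (a' ^ G1 * (a - a') ^ (g0 + n + G2)) * (a'' ^ G2 * (a - a'') ^ (g0 + n + G1)) *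
      (a' - a'') ^ (2 * k))| ≤ (2 ^ 7 * (b + 1) * q ^ 6) ^ k := by
  have hq0 : 0 < q := by linarith
  have b1 := mixed_le a a' q ha ha' hq hq' G1 (g0 + n + G2)
  have b2 := mixed_le a a'' q ha ha'' hq hq'' G2 (g0 + n + G1)
  have b3 := mixed_le a' a'' q ha' ha'' hq' hq'' 0 (2 * k)
  rw [show G1 + (g0 + n + G2) = k by omega] at b1
  rw [show G2 + (g0 + n + G1) = k by omega] at b2
  rw [pow_zero, one_mul, zero_add] at b3
  have b4 : |a ^ k| ≤ q ^ k := by rw [abs_pow, abs_of_pos ha]; gcongr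
  have b5 : |(4 : ℤ) ^ (g0 + G1 + G2) * (Nat.centralBinom n : ℤ)| ≤ 4 ^ k := by
    rw [abs_of_nonneg (by positivity)]
    have h : Nat.centralBinom n ≤ 4 ^ n := by
      have := Nat.choose_le_two_pow (2 * n) n
      rw [pow_mul] at this
      exact this
    have h' : (Nat.centralBinom n : ℤ) ≤ 4 ^ n := by exact_mod_cast h
    calc (4 : ℤ) ^ (g0 + G1 + G2) * (Nat.centralBinom n : ℤ) ≤ 4 ^ (g0 + G1 + G2) * 4 ^ n := by gcongr
      _ = 4 ^ k := by rw [← pow_add]; congr 1; omega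
  have b6 : |(a * b + 1) ^ (G1 + G2)| ≤ (q * (b + 1)) ^ k := by
    have h1 : 0 < a * b := by positivity
    rw [abs_pow, abs_of_pos (by linarith)]
    have h2 : a * b + 1 ≤ q * (b + 1) := by nlinarith
    calc (a * b + 1) ^ (G1 + G2) ≤ (q * (b + 1)) ^ (G1 + G2) := by gcongr
      _ ≤ _ := pow_le_pow_right₀ (by linarith) (by omega)
  rw [abs_mul, abs_mul, abs_mul, abs_mul, abs_mul, abs_mul]
  calc _ ≤ q ^ k * (2 ^ (5 * k) * 4 ^ k * (q * (b + 1)) ^ k * q ^ k * q ^ k * q ^ (2 * k)) := by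
        gcongr
    _ = _ := by
      rw [show (4 : ℤ) = 2 ^ 2 by norm_num]
      simp only [mul_pow, ← pow_mul]
      ring

lemma node_arith (a a' a'' b q : ℤ) (ha : 0 < a) (ha' : 0 < a') (ha'' : 0 < a'') (hq : a ≤ q)
    (hq' : a' ≤ q) (hq'' : a'' ≤ q) (hb : 0 < b) (h1 : a ≠ a') (h2 : a ≠ a'') (k e0 e1 e2 : ℕ)
    (hk : 1 ≤ k) (he : e0 + e1 + e2 = 1) (w d1 d2 : ℝ) (hw : w = ((a : ℝ) * b + 1) / a)
    (hd1 : d1 = ((a : ℝ) - a') / (a * a')) (hd2 : d2 = ((a : ℝ) - a'') / (a * a'')) :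
    Gd a ((2 ^ 10 * ((b : ℝ) + 1) * q ^ 6) ^ k)
      (Sc k a a' a'' * (rho w (UU w d1 d2 k (k + e1) (k + e2)) (k + e0) / w)) := by
  have hexp : Sc k a a' a'' * (rho w (UU w d1 d2 k (k + e1) (k + e2)) (k + e0) / w) =
      ∑ n ∈ Finset.range (k + e0), ∑ p ∈ Finset.HasAntidiagonal.antidiagonal (k + e0 - 1 - n),
        ∑ r ∈ Finset.HasAntidiagonal.antidiagonal p.1, Sc k a a' a'' *
          (((X + C (-w)) ^ (k + 1) : ℝ[X]).coeff r.1 * PowerSeries.coeff r.2 (inv1 d1 (k + e1)) *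
            PowerSeries.coeff p.2 (inv1 d2 (k + e2)) * kap n / w ^ n / w) := by
    simp only [rho, UU, PowerSeries.coeff_mul, Finset.sum_mul, Finset.mul_sum, Finset.sum_div,
      Polynomial.coeff_coe]
  have hb' : (0 : ℝ) < b := by exact_mod_cast hb
  have hq0 : (0 : ℝ) < q := by exact_mod_cast (by linarith : 0 < q)
  have hM : (2 ^ 10 * ((b : ℝ) + 1) * q ^ 6) ^ k = ((2 ^ k : ℕ) : ℝ) * (((2 ^ k : ℕ) : ℝ) *
      (((2 ^ k : ℕ) : ℝ) * (2 ^ 7 * ((b : ℝ) + 1) * q ^ 6) ^ k)) := by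
    push_cast
    simp only [← mul_pow]
    congr 1; ring
  have h2k : k + 1 ≤ 2 ^ k := Nat.lt_two_pow_self
  rw [hexp, hM]
  refine Gd.sum _ _ (by positivity) _ _ _ (by simp; omega) fun n hn => ?_
  refine Gd.sum _ _ (by positivity) _ _ _ (by simp; omega) fun p hp => ?_
  have hn' := Finset.mem_range.mp hn
  have hp' := Finset.HasAntidiagonal.mem_antidiagonal.mp hp
  refine Gd.sum _ _ (by positivity) _ _ _ (by simp; omega) fun r hr => ?_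
  have hr' := Finset.HasAntidiagonal.mem_antidiagonal.mp hr
  obtain ⟨g0, g1⟩ := r
  obtain ⟨p1, g2⟩ := p
  simp only at hp' hr' ⊢
  have hkk : k = g0 + n + (e1 + g1) + (e2 + g2) := by omega
  set G1 := e1 + g1 with hG1
  set G2 := e2 + g2 with hG2
  set c : ℤ := (-1) ^ (n + 1 + G1 + G2) * ((k + 1).choose g0 : ℤ) *
    (((k + e1 - 1 + g1).choose (k + e1 - 1) : ℤ) * (-1) ^ g1) *
    (((k + e2 - 1 + g2).choose (k + e2 - 1) : ℤ) * (-1) ^ g2) with hc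
  have hcb : |c| ≤ 2 ^ (5 * k) := by
    have u0 : ((k + 1).choose g0 : ℤ) ≤ 2 ^ (k + 1) := by exact_mod_cast Nat.choose_le_two_pow _ _
    have u1 : ((k + e1 - 1 + g1).choose (k + e1 - 1) : ℤ) ≤ 2 ^ (k + e1 - 1 + g1) := by
      exact_mod_cast Nat.choose_le_two_pow _ _
    have u2 : ((k + e2 - 1 + g2).choose (k + e2 - 1) : ℤ) ≤ 2 ^ (k + e2 - 1 + g2) := by
      exact_mod_cast Nat.choose_le_two_pow _ _
    simp only [hc, abs_mul, abs_pow, abs_neg, abs_one, one_pow, one_mul, mul_one, Nat.abs_cast]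
    calc _ ≤ (2 : ℤ) ^ (k + 1) * 2 ^ (k + e1 - 1 + g1) * 2 ^ (k + e2 - 1 + g2) := by gcongr
      _ = 2 ^ (k + 1 + (k + e1 - 1 + g1) + (k + e2 - 1 + g2)) := by rw [← pow_add, ← pow_add]
      _ ≤ _ := pow_le_pow_right₀ (by norm_num) (by omega)
  have ha0 : (a : ℝ) ≠ 0 := by exact_mod_cast ha.ne'
  have ha1 : (a' : ℝ) ≠ 0 := by exact_mod_cast ha'.ne'
  have ha2 : (a'' : ℝ) ≠ 0 := by exact_mod_cast ha''.ne'
  have hx1 : (a : ℝ) - a' ≠ 0 := by exact_mod_cast sub_ne_zero.mpr h1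
  have hx2 : (a : ℝ) - a'' ≠ 0 := by exact_mod_cast sub_ne_zero.mpr h2
  have hR : (a : ℝ) * b + 1 ≠ 0 := by
    have : (0 : ℝ) < a := by exact_mod_cast ha
    positivity
  have te := term_eq a a' a'' ((a : ℝ) * b + 1) ha0 ha1 ha2 hx1 hx2 hR g0 n G1 G2 c
    (Nat.centralBinom n)
  rw [← hkk, ← hw, ← hd1, ← hd2] at te
  have ti := term_int a a' a'' b q ha ha' ha'' hq hq' hq'' hb g0 n G1 G2 k hkk c hcb
  have hterm : ((X + C (-w)) ^ (k + 1) : ℝ[X]).coeff g0 * PowerSeries.coeff g1 (inv1 d1 (k + e1)) *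
      PowerSeries.coeff g2 (inv1 d2 (k + e2)) * kap n / w ^ n / w =
      c * w ^ (n + 1 + G1 + G2) * (1 / d1) ^ (k + G1) * (1 / d2) ^ (k + G2) *
        (Nat.centralBinom n / 4 ^ n) / w ^ n / w := by
    rw [coeff_X_add_C_pow, show k + 1 - g0 = n + 1 + G1 + G2 by omega, neg_pow w]
    simp only [inv1, PowerSeries.coeff_mk, kap, hc, hG1, hG2, add_assoc]
    push_cast
    ring
  rw [hterm, te]
  constructor
  · obtain ⟨k', hk'⟩ : ∃ k', k = k' + 1 := ⟨k - 1, by omega⟩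
    refine ⟨a ^ k' * (c * (4 ^ (g0 + G1 + G2) * (Nat.centralBinom n : ℤ)) * (a * b + 1) ^ (G1 + G2) *
      (a' ^ G1 * (a - a') ^ (g0 + n + G2)) * (a'' ^ G2 * (a - a'') ^ (g0 + n + G1)) *
      (a' - a'') ^ (2 * k)), ?_⟩
    have : (a : ℝ) ^ k = a * a ^ k' := by rw [hk', pow_succ']
    rw [this]
    push_cast
    ring
  · exact_mod_cast ti

end Pool.Agent.P.MP_719a5e_nt
end

-- part Pool.Agent.P.MP_719a5e_nt.Row
section

set_option autoImplicit false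

namespace Pool.Agent.P.MP_719a5e_nt

open Filter Topology Polynomial

lemma cop (u v : ℝ) (h : u ≠ v) (m n : ℕ) : IsCoprime ((X + C u : ℝ[X]) ^ m) ((X + C v) ^ n) := by
  have := isCoprime_X_sub_C_of_isUnit_sub (R := ℝ) (a := -u) (b := -v)
    (isUnit_iff_ne_zero.mpr (by intro h'; apply h; linarith))
  simp only [map_neg, sub_neg_eq_add] at this
  exact this.pow

lemma deg_term (u v w : ℝ) (m m1 m2 : ℕ) (hm : 1 ≤ m) (U : PowerSeries ℝ) :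
    ((X + C u) ^ m1 * (X + C v) ^ m2 * (PowerSeries.trunc m U).comp (X + C w)).natDegree
      ≤ m1 + m2 + (m - 1) := by
  obtain ⟨e, rfl⟩ : ∃ e, m = e + 1 := ⟨m - 1, by omega⟩
  have h1 := PowerSeries.natDegree_trunc_lt U e
  have h2 : ((PowerSeries.trunc (e + 1) U).comp (X + C w)).natDegree ≤ e := by
    refine natDegree_comp_le.trans ?_
    rw [natDegree_X_add_C]; omega
  refine natDegree_mul_le.trans ?_
  have h3 : ((X + C u) ^ m1 * (X + C v) ^ m2 : ℝ[X]).natDegree ≤ m1 + m2 := by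
    refine natDegree_mul_le.trans ?_
    simp [natDegree_pow]
  omega

lemma pf (w1 w2 w3 : ℝ) (h12 : w1 ≠ w2) (h13 : w1 ≠ w3) (h23 : w2 ≠ w3) (k m1 m2 m3 : ℕ)
    (p1 : 1 ≤ m1) (p2 : 1 ≤ m2) (p3 : 1 ≤ m3) (hs : k + 1 < m1 + m2 + m3) :
    (X : ℝ[X]) ^ (k + 1) =
      (X + C w2) ^ m2 * (X + C w3) ^ m3 *
        (PowerSeries.trunc m1 (UU w1 (w2 - w1) (w3 - w1) k m2 m3)).comp (X + C w1) +
      (X + C w1) ^ m1 * (X + C w3) ^ m3 *
        (PowerSeries.trunc m2 (UU w2 (w1 - w2) (w3 - w2) k m1 m3)).comp (X + C w2) +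
      (X + C w1) ^ m1 * (X + C w2) ^ m2 *
        (PowerSeries.trunc m3 (UU w3 (w1 - w3) (w2 - w3) k m1 m2)).comp (X + C w3) := by
  have d1 := node_dvd w1 (w2 - w1) (w3 - w1) (sub_ne_zero.mpr h12.symm) (sub_ne_zero.mpr h13.symm)
    k m1 m2 m3 p2 p3
  have d2 := node_dvd w2 (w1 - w2) (w3 - w2) (sub_ne_zero.mpr h12) (sub_ne_zero.mpr h23.symm)
    k m2 m1 m3 p1 p3
  have d3 := node_dvd w3 (w1 - w3) (w2 - w3) (sub_ne_zero.mpr h13) (sub_ne_zero.mpr h23)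
    k m3 m1 m2 p1 p2
  simp only [add_sub_cancel] at d1 d2 d3
  have g1 := deg_term w2 w3 w1 m1 m2 m3 p1 (UU w1 (w2 - w1) (w3 - w1) k m2 m3)
  have g2 := deg_term w1 w3 w2 m2 m1 m3 p2 (UU w2 (w1 - w2) (w3 - w2) k m1 m3)
  have g3 := deg_term w1 w2 w3 m3 m1 m2 p3 (UU w3 (w1 - w3) (w2 - w3) k m1 m2)
  generalize (PowerSeries.trunc m1 (UU w1 (w2 - w1) (w3 - w1) k m2 m3)).comp (X + C w1) = T1 at *
  generalize (PowerSeries.trunc m2 (UU w2 (w1 - w2) (w3 - w2) k m1 m3)).comp (X + C w2) = T2 at *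
  generalize (PowerSeries.trunc m3 (UU w3 (w1 - w3) (w2 - w3) k m1 m2)).comp (X + C w3) = T3 at *
  set y1 : ℝ[X] := (X + C w1) ^ m1 with hy1
  set y2 : ℝ[X] := (X + C w2) ^ m2 with hy2
  set y3 : ℝ[X] := (X + C w3) ^ m3 with hy3
  set P : ℝ[X] := X ^ (k + 1) - (y2 * y3 * T1 + y1 * y3 * T2 + y1 * y2 * T3) with hP
  have e1 : y1 ∣ P := by
    have : P = (X ^ (k + 1) - y2 * y3 * T1) - y1 * (y3 * T2 + y2 * T3) := by rw [hP]; ring
    rw [this]; exact dvd_sub d1 (dvd_mul_right _ _)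
  have e2 : y2 ∣ P := by
    have : P = (X ^ (k + 1) - y1 * y3 * T2) - y2 * (y3 * T1 + y1 * T3) := by rw [hP]; ring
    rw [this]; exact dvd_sub d2 (dvd_mul_right _ _)
  have e3 : y3 ∣ P := by
    have : P = (X ^ (k + 1) - y1 * y2 * T3) - y3 * (y2 * T1 + y1 * T2) := by rw [hP]; ring
    rw [this]; exact dvd_sub d3 (dvd_mul_right _ _)
  have c12 : IsCoprime y1 y2 := cop _ _ h12 _ _
  have c13 : IsCoprime y1 y3 := cop _ _ h13 _ _
  have c23 : IsCoprime y2 y3 := cop _ _ h23 _ _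
  have e : y1 * y2 * y3 ∣ P := (c13.mul_left c23).mul_dvd (c12.mul_dvd e1 e2) e3
  have hm : ∀ (u : ℝ) (m : ℕ), ((X + C u : ℝ[X]) ^ m).Monic := fun u m => (monic_X_add_C u).pow m
  have hdeg : (y1 * y2 * y3).natDegree = m1 + m2 + m3 := by
    rw [((hm _ _).mul (hm _ _)).natDegree_mul (hm _ _), (hm _ _).natDegree_mul (hm _ _)]
    simp [natDegree_pow]
  have hPd : P.natDegree < m1 + m2 + m3 := by
    have a1 := natDegree_sub_le (X ^ (k + 1) : ℝ[X]) (y2 * y3 * T1 + y1 * y3 * T2 + y1 * y2 * T3)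
    have a2 := natDegree_add_le (y2 * y3 * T1 + y1 * y3 * T2) (y1 * y2 * T3)
    have a3 := natDegree_add_le (y2 * y3 * T1) (y1 * y3 * T2)
    rw [natDegree_X_pow, ← hP] at a1
    omega
  have hz : P = 0 := eq_zero_of_dvd_of_natDegree_lt e (by omega)
  exact sub_eq_zero.mp hz

lemma Sc_swap1 (k : ℕ) (a b c : ℝ) : Sc k b a c = Sc k a b c := by
  unfold Sc
  rw [pow_mul, pow_mul]
  congr 2 <;> ring

lemma Sc_swap2 (k : ℕ) (a b c : ℝ) : Sc k c a b = Sc k a b c := by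
  unfold Sc
  rw [pow_mul, pow_mul]
  congr 2 <;> ring

lemma g_le (w1 w2 w3 b τ : ℝ) (hb : 0 < b) (h1 : b ≤ w1) (h2 : b ≤ w2) (h3 : b ≤ w3)
    (k m1 m2 m3 : ℕ) (hk : 1 ≤ k) (hs : m1 + m2 + m3 = 3 * k + 1) :
    (τ ^ 2) ^ (k + 1) / ((τ ^ 2 + w1) ^ m1 * (τ ^ 2 + w2) ^ m2 * (τ ^ 2 + w3) ^ m3)
      ≤ b / b ^ (2 * k) / (τ ^ 2 + b) := by
  have hy : 0 < τ ^ 2 + b := by positivity
  have y1 : 0 < τ ^ 2 + w1 := by linarith
  have y2 : 0 < τ ^ 2 + w2 := by linarith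
  have y3 : 0 < τ ^ 2 + w3 := by linarith
  obtain ⟨j, rfl⟩ : ∃ j, k = j + 1 := ⟨k - 1, by omega⟩
  calc _ ≤ (τ ^ 2 + b) ^ (j + 1 + 1) / ((τ ^ 2 + b) ^ m1 * (τ ^ 2 + b) ^ m2 * (τ ^ 2 + b) ^ m3) := by
        gcongr
        linarith
    _ = 1 / (τ ^ 2 + b) ^ (2 * j + 1) / (τ ^ 2 + b) := by
        rw [← pow_add, ← pow_add, hs]
        field_simp
        ring
    _ ≤ 1 / b ^ (2 * j + 1) / (τ ^ 2 + b) := by
        gcongr
        nlinarith [sq_nonneg τ]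
    _ = _ := by
        congr 1
        field_simp
        ring

lemma row (a1 a2 a3 b q : ℤ) (p1 : 0 < a1) (p2 : 0 < a2) (p3 : 0 < a3) (q1 : a1 ≤ q) (q2 : a2 ≤ q)
    (q3 : a3 ≤ q) (hb : 0 < b) (h12 : a1 ≠ a2) (h13 : a1 ≠ a3) (h23 : a2 ≠ a3)
    (k e1 e2 e3 : ℕ) (hk : 1 ≤ k) (he : e1 + e2 + e3 = 1) (w1 w2 w3 : ℝ)
    (hw1 : w1 = ((a1 : ℝ) * b + 1) / a1) (hw2 : w2 = ((a2 : ℝ) * b + 1) / a2)
    (hw3 : w3 = ((a3 : ℝ) * b + 1) / a3) :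
    ∃ π1 π2 π3 : ℝ, ∃ S : ℝ[X],
      Gd a1 ((2 ^ 10 * ((b : ℝ) + 1) * q ^ 6) ^ k) (Sc k a1 a2 a3 * π1) ∧
      Gd a2 ((2 ^ 10 * ((b : ℝ) + 1) * q ^ 6) ^ k) (Sc k a1 a2 a3 * π2) ∧
      Gd a3 ((2 ^ 10 * ((b : ℝ) + 1) * q ^ 6) ^ k) (Sc k a1 a2 a3 * π3) ∧
      0 ≤ π1 * √w1 + π2 * √w2 + π3 * √w3 ∧
      π1 * √w1 + π2 * √w2 + π3 * √w3 ≤ b / b ^ (2 * k) / √b ∧
      ∀ τ : ℝ, HasDerivAt
        (fun τ : ℝ => τ * S.eval (τ ^ 2) / ((τ ^ 2 + w1) * (τ ^ 2 + w2) * (τ ^ 2 + w3)) ^ k)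
        ((τ ^ 2) ^ (k + 1) / ((τ ^ 2 + w1) ^ (k + e1) * (τ ^ 2 + w2) ^ (k + e2) * (τ ^ 2 + w3) ^ (k + e3))
          - (π1 * w1 / (τ ^ 2 + w1) + π2 * w2 / (τ ^ 2 + w2) + π3 * w3 / (τ ^ 2 + w3))) τ := by
  have r1 : (0 : ℝ) < a1 := by exact_mod_cast p1
  have r2 : (0 : ℝ) < a2 := by exact_mod_cast p2
  have r3 : (0 : ℝ) < a3 := by exact_mod_cast p3
  have rb : (0 : ℝ) < b := by exact_mod_cast hb
  have hlt : ∀ a : ℝ, 0 < a → (b : ℝ) ≤ (a * b + 1) / a := fun a ha => by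
    rw [le_div_iff₀ ha]; linarith
  have b1 : (b : ℝ) ≤ w1 := hw1 ▸ hlt _ r1
  have b2 : (b : ℝ) ≤ w2 := hw2 ▸ hlt _ r2
  have b3 : (b : ℝ) ≤ w3 := hw3 ▸ hlt _ r3
  have o1 : 0 < w1 := by linarith
  have o2 : 0 < w2 := by linarith
  have o3 : 0 < w3 := by linarith
  have hdiff : ∀ x y : ℝ, 0 < x → 0 < y → (y * b + 1) / y - (x * b + 1) / x = (x - y) / (x * y) :=
    fun x y hx hy => by field_simp; ring
  have hne : ∀ x y : ℤ, 0 < x → 0 < y → x ≠ y → ((x : ℝ) * b + 1) / x ≠ ((y : ℝ) * b + 1) / y := by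
    intro x y hx hy hxy h
    have hx' : (0 : ℝ) < x := by exact_mod_cast hx
    have hy' : (0 : ℝ) < y := by exact_mod_cast hy
    have := hdiff x y hx' hy'
    rw [h, sub_self, eq_comm, div_eq_zero_iff] at this
    rcases this with h | h
    · exact hxy (by exact_mod_cast sub_eq_zero.mp h)
    · exact absurd h (by positivity)
  have n12 : w1 ≠ w2 := by rw [hw1, hw2]; exact hne _ _ p1 p2 h12
  have n13 : w1 ≠ w3 := by rw [hw1, hw3]; exact hne _ _ p1 p3 h13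
  have n23 : w2 ≠ w3 := by rw [hw2, hw3]; exact hne _ _ p2 p3 h23
  have A1 := node_arith a1 a2 a3 b q p1 p2 p3 q1 q2 q3 hb h12 h13 k e1 e2 e3 hk he w1 (w2 - w1)
    (w3 - w1) hw1 (by rw [hw1, hw2]; exact hdiff _ _ r1 r2) (by rw [hw1, hw3]; exact hdiff _ _ r1 r3)
  have A2 := node_arith a2 a1 a3 b q p2 p1 p3 q2 q1 q3 hb h12.symm h23 k e2 e1 e3 hk (by omega) w2
    (w1 - w2) (w3 - w2) hw2 (by rw [hw1, hw2]; exact hdiff _ _ r2 r1)
    (by rw [hw2, hw3]; exact hdiff _ _ r2 r3)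
  have A3 := node_arith a3 a1 a2 b q p3 p1 p2 q3 q1 q2 hb h13.symm h23.symm k e3 e1 e2 hk (by omega)
    w3 (w1 - w3) (w2 - w3) hw3 (by rw [hw1, hw3]; exact hdiff _ _ r3 r1)
    (by rw [hw2, hw3]; exact hdiff _ _ r3 r2)
  rw [Sc_swap1] at A2
  rw [Sc_swap2] at A3
  have hpf := pf w1 w2 w3 n12 n13 n23 k (k + e1) (k + e2) (k + e3) (by omega) (by omega) (by omega)
    (by omega)
  obtain ⟨Ω1, D1, Z1, L1, V1, E1⟩ := node_ana w1 o1
    (UU w1 (w2 - w1) (w3 - w1) k (k + e2) (k + e3)) k (k + e1) (by omega)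
  obtain ⟨Ω2, D2, Z2, L2, V2, E2⟩ := node_ana w2 o2
    (UU w2 (w1 - w2) (w3 - w2) k (k + e1) (k + e3)) k (k + e2) (by omega)
  obtain ⟨Ω3, D3, Z3, L3, V3, E3⟩ := node_ana w3 o3
    (UU w3 (w1 - w3) (w2 - w3) k (k + e1) (k + e2)) k (k + e3) (by omega)
  generalize rho w1 _ _ = ρ1 at *
  generalize rho w2 _ _ = ρ2 at *
  generalize rho w3 _ _ = ρ3 at *
  generalize PowerSeries.trunc (k + e1) (UU w1 (w2 - w1) (w3 - w1) k (k + e2) (k + e3)) = T1 at *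
  generalize PowerSeries.trunc (k + e2) (UU w2 (w1 - w2) (w3 - w2) k (k + e1) (k + e3)) = T2 at *
  generalize PowerSeries.trunc (k + e3) (UU w3 (w1 - w3) (w2 - w3) k (k + e1) (k + e2)) = T3 at *
  have D : ∀ τ : ℝ, HasDerivAt (fun τ => Ω1 τ + Ω2 τ + Ω3 τ)
      ((τ ^ 2) ^ (k + 1) / ((τ ^ 2 + w1) ^ (k + e1) * (τ ^ 2 + w2) ^ (k + e2) * (τ ^ 2 + w3) ^ (k + e3))
        - (ρ1 / (τ ^ 2 + w1) + ρ2 / (τ ^ 2 + w2) + ρ3 / (τ ^ 2 + w3))) τ := by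
    intro τ
    have h := congrArg (eval (τ ^ 2)) hpf
    simp only [eval_pow, eval_X, eval_add, eval_mul, eval_C, eval_comp] at h
    have y1 : τ ^ 2 + w1 ≠ 0 := by positivity
    have y2 : τ ^ 2 + w2 ≠ 0 := by positivity
    have y3 : τ ^ 2 + w3 ≠ 0 := by positivity
    have e : (τ ^ 2) ^ (k + 1) / ((τ ^ 2 + w1) ^ (k + e1) * (τ ^ 2 + w2) ^ (k + e2) *
        (τ ^ 2 + w3) ^ (k + e3)) - (ρ1 / (τ ^ 2 + w1) + ρ2 / (τ ^ 2 + w2) + ρ3 / (τ ^ 2 + w3)) =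
        (eval (τ ^ 2 + w1) T1 / (τ ^ 2 + w1) ^ (k + e1) - ρ1 / (τ ^ 2 + w1)) +
        (eval (τ ^ 2 + w2) T2 / (τ ^ 2 + w2) ^ (k + e2) - ρ2 / (τ ^ 2 + w2)) +
        (eval (τ ^ 2 + w3) T3 / (τ ^ 2 + w3) ^ (k + e3) - ρ3 / (τ ^ 2 + w3)) := by
      rw [h]
      have z1 := pow_ne_zero (k + e1) y1
      have z2 := pow_ne_zero (k + e2) y2
      have z3 := pow_ne_zero (k + e3) y3
      generalize (τ ^ 2 + w1) ^ (k + e1) = u1 at *
      generalize (τ ^ 2 + w2) ^ (k + e2) = u2 at *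
      generalize (τ ^ 2 + w3) ^ (k + e3) = u3 at *
      field_simp
      ring
    rw [e]
    exact ((D1 τ).add (D2 τ)).add (D3 τ)
  have hA := lemA w1 w2 w3 b (b / b ^ (2 * k)) ρ1 ρ2 ρ3 o1 o2 o3 rb _ _ D (by simp [Z1, Z2, Z3])
    (by simpa using (L1.add L2).add L3) (fun τ => by positivity)
    (fun τ => g_le w1 w2 w3 b τ rb b1 b2 b3 k _ _ _ hk (by omega))
  have hs : ∀ ρ w : ℝ, 0 < w → ρ / w * √w = ρ / √w := fun ρ w hw => by
    have h1 : 0 < √w := Real.sqrt_pos.mpr hw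
    have h2 : √w * √w = w := Real.mul_self_sqrt hw.le
    field_simp
    rw [sq, h2]
  refine ⟨ρ1 / w1, ρ2 / w2, ρ3 / w3, V1 * ((X + C w2) * (X + C w3)) ^ k +
    V2 * ((X + C w1) * (X + C w3)) ^ k + V3 * ((X + C w1) * (X + C w2)) ^ k, A1, A2, A3, ?_, ?_, ?_⟩
  · rw [hs _ _ o1, hs _ _ o2, hs _ _ o3]; exact hA.1
  · rw [hs _ _ o1, hs _ _ o2, hs _ _ o3]; exact hA.2
  · intro τ
    rw [div_mul_cancel₀ _ o1.ne', div_mul_cancel₀ _ o2.ne', div_mul_cancel₀ _ o3.ne']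
    have ef : (fun τ : ℝ => τ * (V1 * ((X + C w2) * (X + C w3)) ^ k +
        V2 * ((X + C w1) * (X + C w3)) ^ k + V3 * ((X + C w1) * (X + C w2)) ^ k).eval (τ ^ 2) /
        ((τ ^ 2 + w1) * (τ ^ 2 + w2) * (τ ^ 2 + w3)) ^ k) = fun τ => Ω1 τ + Ω2 τ + Ω3 τ := by
      funext τ
      have y1 : τ ^ 2 + w1 ≠ 0 := by positivity
      have y2 : τ ^ 2 + w2 ≠ 0 := by positivity
      have y3 : τ ^ 2 + w3 ≠ 0 := by positivity
      rw [E1, E2, E3]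
      simp only [eval_pow, eval_X, eval_add, eval_mul, eval_C, mul_pow]
      have z1 := pow_ne_zero k y1
      have z2 := pow_ne_zero k y2
      have z3 := pow_ne_zero k y3
      generalize (τ ^ 2 + w1) ^ k = u1 at *
      generalize (τ ^ 2 + w2) ^ k = u2 at *
      generalize (τ ^ 2 + w3) ^ k = u3 at *
      field_simp
    rw [ef]
    exact D τ

end Pool.Agent.P.MP_719a5e_nt
end

-- part Pool.Agent.P.MP_719a5e_nt.Excl
section

set_option autoImplicit false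

namespace Pool.Agent.P.MP_719a5e_nt

open Filter Topology Polynomial

lemma indep (w1 w2 w3 : ℝ) (o1 : 0 < w1) (o2 : 0 < w2) (o3 : 0 < w3) (n12 : w1 ≠ w2)
    (n13 : w1 ≠ w3) (n23 : w2 ≠ w3) (k : ℕ) (hk : 1 ≤ k) (S : ℝ[X]) (l1 l2 l3 : ℝ)
    (h : ∀ τ : ℝ, HasDerivAt
      (fun τ : ℝ => τ * S.eval (τ ^ 2) / ((τ ^ 2 + w1) * (τ ^ 2 + w2) * (τ ^ 2 + w3)) ^ k)
      ((τ ^ 2) ^ (k + 1) * (l1 * (τ ^ 2 + w2) * (τ ^ 2 + w3) + l2 * (τ ^ 2 + w1) * (τ ^ 2 + w3)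
        + l3 * (τ ^ 2 + w1) * (τ ^ 2 + w2)) / ((τ ^ 2 + w1) * (τ ^ 2 + w2) * (τ ^ 2 + w3)) ^ (k + 1)) τ) :
    l1 = 0 ∧ l2 = 0 ∧ l3 = 0 := by
  set B : ℝ[X] := C l1 * (X + C w2) * (X + C w3) + C l2 * (X + C w1) * (X + C w3)
    + C l3 * (X + C w1) * (X + C w2) with hB
  have hBd : B.natDegree ≤ 2 := by rw [hB]; compute_degree
  obtain ⟨j, rfl⟩ : ∃ j, k = j + 1 := ⟨k - 1, by omega⟩
  have hid : X ^ (j + 1 + 1) * B = (S + 2 * X * derivative S) *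
      (X ^ 3 + C (w1 + w2 + w3) * X ^ 2 + C (w1 * w2 + w1 * w3 + w2 * w3) * X + C (w1 * w2 * w3))
      - 2 * ((j + 1 : ℕ) : ℝ[X]) * X * S * (3 * X ^ 2 + 2 * C (w1 + w2 + w3) * X
        + C (w1 * w2 + w1 * w3 + w2 * w3)) := by
    apply eq_of_infinite_eval_eq
    refine (Set.Ici_infinite (0 : ℝ)).mono fun s hs => ?_
    obtain ⟨τ, rfl⟩ : ∃ τ : ℝ, s = τ ^ 2 := ⟨√s, (Real.sq_sqrt hs).symm⟩
    have y1 : τ ^ 2 + w1 ≠ 0 := by positivity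
    have y2 : τ ^ 2 + w2 ≠ 0 := by positivity
    have y3 : τ ^ 2 + w3 ≠ 0 := by positivity
    have hY : (τ ^ 2 + w1) * (τ ^ 2 + w2) * (τ ^ 2 + w3) ≠ 0 := by positivity
    have d0 : HasDerivAt (fun τ : ℝ => τ ^ 2) (2 * τ) τ := by simpa using hasDerivAt_pow 2 τ
    have d1 : HasDerivAt (fun τ : ℝ => S.eval (τ ^ 2)) ((derivative S).eval (τ ^ 2) * (2 * τ)) τ :=
      HasDerivAt.comp (h₂ := fun x => S.eval x) (h := fun τ : ℝ => τ ^ 2) τ (S.hasDerivAt (τ ^ 2)) d0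
    have d2 := (((d0.add_const w1).mul (d0.add_const w2)).mul (d0.add_const w3)).pow (j + 1)
    have d3 := ((hasDerivAt_id τ).mul d1).div d2 (pow_ne_zero _ hY)
    have e := (h τ).unique d3
    simp only [Pi.mul_apply, Pi.pow_apply, id, Nat.add_sub_cancel] at e
    rw [div_eq_div_iff (pow_ne_zero _ hY) (pow_ne_zero _ (pow_ne_zero _ hY))] at e
    simp only [Set.mem_ofPred_eq, hB, eval_mul, eval_add, eval_sub, eval_pow, eval_X, eval_C,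
      eval_ofNat, eval_natCast]
    have hP := pow_ne_zero (2 * j + 2) hY
    apply mul_right_cancel₀ hP
    have e1 : ((τ ^ 2 + w1) * (τ ^ 2 + w2) * (τ ^ 2 + w3)) ^ (j + 1) =
        ((τ ^ 2 + w1) * (τ ^ 2 + w2) * (τ ^ 2 + w3)) ^ j *
          ((τ ^ 2 + w1) * (τ ^ 2 + w2) * (τ ^ 2 + w3)) := pow_succ _ _
    have e2 : ((τ ^ 2 + w1) * (τ ^ 2 + w2) * (τ ^ 2 + w3)) ^ (j + 1 + 1) =
        ((τ ^ 2 + w1) * (τ ^ 2 + w2) * (τ ^ 2 + w3)) ^ j *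
          ((τ ^ 2 + w1) * (τ ^ 2 + w2) * (τ ^ 2 + w3)) ^ 2 := by rw [← pow_add]
    have e3 : ((τ ^ 2 + w1) * (τ ^ 2 + w2) * (τ ^ 2 + w3)) ^ (2 * j + 2) =
        (((τ ^ 2 + w1) * (τ ^ 2 + w2) * (τ ^ 2 + w3)) ^ j) ^ 2 *
          ((τ ^ 2 + w1) * (τ ^ 2 + w2) * (τ ^ 2 + w3)) ^ 2 := by
      rw [← pow_mul, ← pow_add]; congr 1; ring
    rw [e2, e1] at e
    rw [e3]
    generalize ((τ ^ 2 + w1) * (τ ^ 2 + w2) * (τ ^ 2 + w3)) ^ j = W at *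
    generalize (τ ^ 2) ^ (j + 1 + 1) = T at *
    linear_combination e
  have hS := lemB (j + 1) _ _ _ (by positivity) S B hBd hid
  rw [hS] at hid
  simp only [derivative_zero, mul_zero, add_zero, zero_mul, sub_zero] at hid
  have hB0 : B = 0 := (mul_eq_zero.mp hid).resolve_left (pow_ne_zero _ X_ne_zero)
  have v1 := congrArg (eval (-w1)) hB0
  have v2 := congrArg (eval (-w2)) hB0
  have v3 := congrArg (eval (-w3)) hB0
  simp only [hB, eval_mul, eval_add, eval_X, eval_C, eval_zero, neg_add_cancel, mul_zero, zero_mul,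
    add_zero, zero_add, mul_eq_zero] at v1 v2 v3
  refine ⟨?_, ?_, ?_⟩
  · rcases v1 with (h | h) | h
    · exact h
    · exact absurd (by linarith) n12
    · exact absurd (by linarith) n13
  · rcases v2 with (h | h) | h
    · exact h
    · exact absurd (by linarith) n12
    · exact absurd (by linarith) n23
  · rcases v3 with (h | h) | h
    · exact h
    · exact absurd (by linarith) n13
    · exact absurd (by linarith) n23

lemma lin3 (x1 x2 x3 y1 y2 y3 z1 z2 z3 v1 v2 v3 : ℝ) (hv : v1 ≠ 0)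
    (hx : x1 * v1 + x2 * v2 + x3 * v3 = 0) (hy : y1 * v1 + y2 * v2 + y3 * v3 = 0)
    (hz : z1 * v1 + z2 * v2 + z3 * v3 = 0) :
    ∃ l1 l2 l3 : ℝ, ¬ (l1 = 0 ∧ l2 = 0 ∧ l3 = 0) ∧ l1 * x1 + l2 * y1 + l3 * z1 = 0 ∧
      l1 * x2 + l2 * y2 + l3 * z2 = 0 ∧ l1 * x3 + l2 * y3 + l3 * z3 = 0 := by
  have hdet : (!![x1, x2, x3; y1, y2, y3; z1, z2, z3] : Matrix (Fin 3) (Fin 3) ℝ).det = 0 := by
    rw [← Matrix.exists_mulVec_eq_zero_iff]
    refine ⟨![v1, v2, v3], fun h => hv (by simpa using congrFun h 0), ?_⟩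
    ext i
    fin_cases i <;> simp [Matrix.mulVec, dotProduct, Fin.sum_univ_three, hx, hy, hz]
  obtain ⟨l, hl, h⟩ := Matrix.exists_vecMul_eq_zero_iff.mpr hdet
  refine ⟨l 0, l 1, l 2, fun ⟨a, b, c⟩ => hl ?_, ?_, ?_, ?_⟩
  · ext i; fin_cases i <;> simp [a, b, c]
  · simpa [Matrix.vecMul, dotProduct, Fin.sum_univ_three] using congrFun h 0
  · simpa [Matrix.vecMul, dotProduct, Fin.sum_univ_three] using congrFun h 1
  · simpa [Matrix.vecMul, dotProduct, Fin.sum_univ_three] using congrFun h 2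

lemma root_prod (a b c r s : ℝ) (ha : 0 < a) (hr : 0 < r) (hs : 0 < s) (e : r ^ 2 = a * b + 1)
    (f : s ^ 2 = a * c + 1) : r * s / a = √((a * b + 1) / a) * √((a * c + 1) / a) := by
  rw [← e, ← f, ← Real.sqrt_mul (by positivity)]
  have : r ^ 2 / a * (s ^ 2 / a) = (r * s / a) ^ 2 := by field_simp
  rw [this, Real.sqrt_sq (by positivity)]

lemma phi_near (a c : ℝ) (ha : 1 ≤ a) (hc : 0 < c) :
    |√((a * c + 1) / a) - √c| ≤ 1 / √c := by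
  have ht : 0 < √c := Real.sqrt_pos.mpr hc
  have h1 : c ≤ (a * c + 1) / a := by rw [le_div_iff₀ (by linarith)]; linarith
  have h2 : (a * c + 1) / a ≤ c + 1 := by rw [div_le_iff₀ (by linarith)]; linarith
  have h3 : √c ≤ √((a * c + 1) / a) := Real.sqrt_le_sqrt h1
  rw [abs_of_nonneg (by linarith), sub_le_iff_le_add]
  apply Real.sqrt_le_iff.mpr
  refine ⟨by positivity, ?_⟩
  have h4 : (1 / √c + √c) ^ 2 = (1 / √c) ^ 2 + 2 + √c ^ 2 := by field_simp; ring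
  rw [h4, Real.sq_sqrt hc.le]
  have : 0 ≤ (1 / √c) ^ 2 := by positivity
  linarith

/-- the inequality given by one nonvanishing linear form -/
lemma form_ineq (a1 a2 a3 r1 r2 r3 s1 s2 s3 : ℤ) (p1 : 0 < a1) (p2 : 0 < a2) (p3 : 0 < a3)
    (σ M I t u π1 π2 π3 x1 x2 x3 φ1 φ2 φ3 : ℝ) (hσ : 0 < σ) (ht : 0 < t)
    (G1 : Gd a1 M (σ * π1)) (G2 : Gd a2 M (σ * π2)) (G3 : Gd a3 M (σ * π3))
    (v1 : (r1 : ℝ) * s1 / a1 = x1 * φ1) (v2 : (r2 : ℝ) * s2 / a2 = x2 * φ2)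
    (v3 : (r3 : ℝ) * s3 / a3 = x3 * φ3)
    (u1 : |x1| ≤ u) (u2 : |x2| ≤ u) (u3 : |x3| ≤ u)
    (f1 : |φ1 - t| ≤ 1 / t) (f2 : |φ2 - t| ≤ 1 / t) (f3 : |φ3 - t| ≤ 1 / t)
    (I0 : 0 ≤ π1 * x1 + π2 * x2 + π3 * x3) (I1 : π1 * x1 + π2 * x2 + π3 * x3 ≤ I)
    (hne : π1 * (x1 * φ1) + π2 * (x2 * φ2) + π3 * (x3 * φ3) ≠ 0) :
    1 ≤ σ * t * I + 3 * (M * u * (1 / t)) := by
  obtain ⟨⟨z1, e1⟩, m1⟩ := G1
  obtain ⟨⟨z2, e2⟩, m2⟩ := G2
  obtain ⟨⟨z3, e3⟩, m3⟩ := G3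
  have c1 : (a1 : ℝ) ≠ 0 := by exact_mod_cast p1.ne'
  have c2 : (a2 : ℝ) ≠ 0 := by exact_mod_cast p2.ne'
  have c3 : (a3 : ℝ) ≠ 0 := by exact_mod_cast p3.ne'
  have hint : σ * (π1 * (x1 * φ1) + π2 * (x2 * φ2) + π3 * (x3 * φ3))
      = ((z1 * r1 * s1 + z2 * r2 * s2 + z3 * r3 * s3 : ℤ) : ℝ) := by
    rw [← v1, ← v2, ← v3]
    calc _ = (σ * π1) * (r1 * s1 / a1) + (σ * π2) * (r2 * s2 / a2) + (σ * π3) * (r3 * s3 / a3) := by
          ring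
      _ = _ := by rw [e1, e2, e3]; push_cast; field_simp
  have hz : (z1 * r1 * s1 + z2 * r2 * s2 + z3 * r3 * s3 : ℤ) ≠ 0 := by
    intro h
    rw [h] at hint
    exact hne ((mul_eq_zero.mp (by simpa using hint)).resolve_left hσ.ne')
  have h1 : (1 : ℝ) ≤ |σ * (π1 * (x1 * φ1) + π2 * (x2 * φ2) + π3 * (x3 * φ3))| := by
    rw [hint]; exact_mod_cast Int.one_le_abs hz
  have hM : 0 ≤ M := (abs_nonneg _).trans m1
  have hu : 0 ≤ u := (abs_nonneg _).trans u1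
  have tb : ∀ y x d : ℝ, |y| ≤ M → |x| ≤ u → |d| ≤ 1 / t → |y * x * d| ≤ M * u * (1 / t) := by
    intro y x d hy hx hd
    rw [abs_mul, abs_mul]; gcongr
  have hsplit : σ * (π1 * (x1 * φ1) + π2 * (x2 * φ2) + π3 * (x3 * φ3)) =
      σ * t * (π1 * x1 + π2 * x2 + π3 * x3) + (σ * π1) * x1 * (φ1 - t) + (σ * π2) * x2 * (φ2 - t)
        + (σ * π3) * x3 * (φ3 - t) := by ring
  have t1 := abs_le.mp (tb _ _ _ m1 u1 f1)
  have t2 := abs_le.mp (tb _ _ _ m2 u2 f2)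
  have t3 := abs_le.mp (tb _ _ _ m3 u3 f3)
  have t0 : 0 ≤ σ * t * (π1 * x1 + π2 * x2 + π3 * x3) := by positivity
  have t4 : σ * t * (π1 * x1 + π2 * x2 + π3 * x3) ≤ σ * t * I := by gcongr
  rw [hsplit] at h1
  refine h1.trans (abs_le.mpr ⟨?_, ?_⟩) <;> linarith [t1.1, t1.2, t2.1, t2.2, t3.1, t3.2]

end Pool.Agent.P.MP_719a5e_nt
end

-- part Pool.Agent.P.MP_719a5e_nt.Gap
section

set_option autoImplicit false

namespace Pool.Agent.P.MP_719a5e_nt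

/-- the bilinear form of the conic on which the vectors of square roots lie -/
def Gf (a1 a2 a3 r1 r2 r3 s1 s2 s3 : ℤ) : ℤ :=
  (a3 - a1) * r2 * s2 - (a2 - a1) * r3 * s3 - (a3 - a2) * r1 * s1

lemma cross_sq (x y b c r1 r2 s1 s2 : ℤ) (hx : 0 < x) (hy : 0 < y) (hb : 0 < b) (hc : 0 < c)
    (p1 : 0 < r1) (p2 : 0 < r2) (q1 : 0 < s1) (q2 : 0 < s2)
    (h1 : r1 ^ 2 = x * b + 1) (h2 : r2 ^ 2 = y * b + 1)
    (k1 : s1 ^ 2 = x * c + 1) (k2 : s2 ^ 2 = y * c + 1) :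
    4 * (x * y * b * c) < (r1 * s2 + r2 * s1) ^ 2 := by
  have hP : x * y * b * c < r1 * s2 * (r2 * s1) := by
    have h0 : 0 < x * y * b * c := by positivity
    have hsq : (x * y * b * c) ^ 2 < (r1 * s2 * (r2 * s1)) ^ 2 := by
      have e : (r1 * s2 * (r2 * s1)) ^ 2 = (x * b + 1) * (y * c + 1) * ((y * b + 1) * (x * c + 1)) := by
        rw [← h1, ← h2, ← k1, ← k2]; ring
      have e2 : (x * y * b * c) ^ 2 = (x * b) * (y * c) * ((y * b) * (x * c)) := by ring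
      rw [e, e2]
      have u1 : 0 < x * b := by positivity
      have u2 : 0 < y * c := by positivity
      have u3 : 0 < y * b := by positivity
      have u4 : 0 < x * c := by positivity
      gcongr <;> linarith
    exact lt_of_pow_lt_pow_left₀ 2 (by positivity) hsq
  nlinarith [sq_nonneg (r1 * s2 - r2 * s1)]

lemma Gf_bound (a1 a2 a3 b c r1 r2 r3 s1 s2 s3 : ℤ) (h0 : 0 < a1) (h12 : a1 < a2) (h23 : a2 < a3)
    (hb : 0 < b) (hbc : b < c)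
    (p1 : 0 < r1) (p2 : 0 < r2) (p3 : 0 < r3) (q1 : 0 < s1) (q2 : 0 < s2) (q3 : 0 < s3)
    (e1 : r1 ^ 2 = a1 * b + 1) (e2 : r2 ^ 2 = a2 * b + 1) (e3 : r3 ^ 2 = a3 * b + 1)
    (f1 : s1 ^ 2 = a1 * c + 1) (f2 : s2 ^ 2 = a2 * c + 1) (f3 : s3 ^ 2 = a3 * c + 1) :
    0 < Gf a1 a2 a3 r1 r2 r3 s1 s2 s3 ∧
    Gf a1 a2 a3 r1 r2 r3 s1 s2 s3 ^ 2 * (64 * (a1 * a2 * a3) ^ 2 * (b * c) ^ 3)
      < ((a2 - a1) * (a3 - a1) * (a3 - a2)) ^ 2 * (c - b) ^ 4 := by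
  have hc : 0 < c := by linarith
  have ha2 : 0 < a2 := by linarith
  have ha3 : 0 < a3 := by linarith
  set G := Gf a1 a2 a3 r1 r2 r3 s1 s2 s3 with hG
  have n12 : (r1 * s2 - r2 * s1) * (r1 * s2 + r2 * s1) = (a2 - a1) * (c - b) := by
    have : (r1 * s2 - r2 * s1) * (r1 * s2 + r2 * s1) = r1 ^ 2 * s2 ^ 2 - r2 ^ 2 * s1 ^ 2 := by ring
    rw [this, e1, e2, f1, f2]; ring
  have n13 : (r1 * s3 - r3 * s1) * (r1 * s3 + r3 * s1) = (a3 - a1) * (c - b) := by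
    have : (r1 * s3 - r3 * s1) * (r1 * s3 + r3 * s1) = r1 ^ 2 * s3 ^ 2 - r3 ^ 2 * s1 ^ 2 := by ring
    rw [this, e1, e3, f1, f3]; ring
  have n23 : (r2 * s3 - r3 * s2) * (r2 * s3 + r3 * s2) = (a3 - a2) * (c - b) := by
    have : (r2 * s3 - r3 * s2) * (r2 * s3 + r3 * s2) = r2 ^ 2 * s3 ^ 2 - r3 ^ 2 * s2 ^ 2 := by ring
    rw [this, e2, e3, f2, f3]; ring
  have nn : (r1 * s2 - r2 * s1) * (r1 * s3 - r3 * s1) * (r2 * s3 - r3 * s2) = (c - b) * G := by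
    have : (r1 * s2 - r2 * s1) * (r1 * s3 - r3 * s1) * (r2 * s3 - r3 * s2)
        = r2 * s2 * (r1 ^ 2 * s3 ^ 2 - r3 ^ 2 * s1 ^ 2) + r3 * s3 * (r2 ^ 2 * s1 ^ 2 - r1 ^ 2 * s2 ^ 2)
          + r1 * s1 * (r3 ^ 2 * s2 ^ 2 - r2 ^ 2 * s3 ^ 2) := by ring
    rw [this, e1, e2, e3, f1, f2, f3, hG, Gf]; ring
  set M := (r1 * s2 + r2 * s1) * (r1 * s3 + r3 * s1) * (r2 * s3 + r3 * s2) with hM
  have hD : 0 < c - b := by linarith
  have key : G * M = (a2 - a1) * (a3 - a1) * (a3 - a2) * (c - b) ^ 2 := by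
    have h : (c - b) * (G * M) = (c - b) * ((a2 - a1) * (a3 - a1) * (a3 - a2) * (c - b) ^ 2) := by
      calc (c - b) * (G * M) = ((c - b) * G) * M := by ring
        _ = ((r1 * s2 - r2 * s1) * (r1 * s2 + r2 * s1)) * ((r1 * s3 - r3 * s1) * (r1 * s3 + r3 * s1))
            * ((r2 * s3 - r3 * s2) * (r2 * s3 + r3 * s2)) := by rw [← nn, hM]; ring
        _ = _ := by rw [n12, n13, n23]; ring
    exact mul_left_cancel₀ hD.ne' h
  have hMpos : 0 < M := by positivity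
  have hΔ : 0 < (a2 - a1) * (a3 - a1) * (a3 - a2) * (c - b) ^ 2 := by
    have : 0 < a2 - a1 := by linarith
    have : 0 < a3 - a1 := by linarith
    have : 0 < a3 - a2 := by linarith
    positivity
  have hGpos : 0 < G := by
    by_contra hneg
    have : G * M ≤ 0 := mul_nonpos_of_nonpos_of_nonneg (not_lt.mp hneg) hMpos.le
    linarith
  refine ⟨hGpos, ?_⟩
  have m12 := cross_sq a1 a2 b c r1 r2 s1 s2 h0 ha2 hb hc p1 p2 q1 q2 e1 e2 f1 f2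
  have m13 := cross_sq a1 a3 b c r1 r3 s1 s3 h0 ha3 hb hc p1 p3 q1 q3 e1 e3 f1 f3
  have m23 := cross_sq a2 a3 b c r2 r3 s2 s3 ha2 ha3 hb hc p2 p3 q2 q3 e2 e3 f2 f3
  have hM2 : 64 * (a1 * a2 * a3) ^ 2 * (b * c) ^ 3 < M ^ 2 := by
    have e : 64 * (a1 * a2 * a3) ^ 2 * (b * c) ^ 3
        = (4 * (a1 * a2 * b * c)) * (4 * (a1 * a3 * b * c)) * (4 * (a2 * a3 * b * c)) := by ring
    have e' : M ^ 2 = (r1 * s2 + r2 * s1) ^ 2 * (r1 * s3 + r3 * s1) ^ 2 * (r2 * s3 + r3 * s2) ^ 2 := by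
      rw [hM]; ring
    rw [e, e']
    gcongr
  calc G ^ 2 * (64 * (a1 * a2 * a3) ^ 2 * (b * c) ^ 3) < G ^ 2 * M ^ 2 := by gcongr
    _ = (G * M) ^ 2 := by ring
    _ = _ := by rw [key]; ring

/-- two-point gap principle -/
lemma two_gap (a1 a2 a3 b c r1 r2 r3 s1 s2 s3 : ℤ) (h0 : 0 < a1) (h12 : a1 < a2) (h23 : a2 < a3)
    (hb : 0 < b) (hbc : b < c)
    (p1 : 0 < r1) (p2 : 0 < r2) (p3 : 0 < r3) (q1 : 0 < s1) (q2 : 0 < s2) (q3 : 0 < s3)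
    (e1 : r1 ^ 2 = a1 * b + 1) (e2 : r2 ^ 2 = a2 * b + 1) (e3 : r3 ^ 2 = a3 * b + 1)
    (f1 : s1 ^ 2 = a1 * c + 1) (f2 : s2 ^ 2 = a2 * c + 1) (f3 : s3 ^ 2 = a3 * c + 1) :
    64 * b ^ 3 < a3 ^ 2 * c := by
  obtain ⟨hG, hb2⟩ := Gf_bound a1 a2 a3 b c r1 r2 r3 s1 s2 s3 h0 h12 h23 hb hbc p1 p2 p3 q1 q2 q3
    e1 e2 e3 f1 f2 f3
  have hc : 0 < c := by linarith
  have ha2 : 0 < a2 := by linarith
  have ha3 : 0 < a3 := by linarith
  set G := Gf a1 a2 a3 r1 r2 r3 s1 s2 s3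
  clear_value G
  have hG1 : 1 ≤ G ^ 2 := one_le_pow₀ hG
  have ha1 : 1 ≤ a1 ^ 2 := one_le_pow₀ h0
  have hX : 0 < (a2 * a3) ^ 2 * c ^ 3 := by positivity
  have h1 : (64 * b ^ 3) * ((a2 * a3) ^ 2 * c ^ 3) ≤ G ^ 2 * (64 * (a1 * a2 * a3) ^ 2 * (b * c) ^ 3) := by
    have : G ^ 2 * (64 * (a1 * a2 * a3) ^ 2 * (b * c) ^ 3)
        = (G ^ 2 * a1 ^ 2) * ((64 * b ^ 3) * ((a2 * a3) ^ 2 * c ^ 3)) := by ring
    rw [this]
    exact le_mul_of_one_le_left (by positivity) (one_le_mul_of_one_le_of_one_le hG1 ha1)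
  have h2 : ((a2 - a1) * (a3 - a1) * (a3 - a2)) ^ 2 * (c - b) ^ 4 ≤ (a2 * a3 * a3) ^ 2 * c ^ 4 := by
    have : 0 < a2 - a1 := by linarith
    have : 0 < a3 - a1 := by linarith
    have : 0 < a3 - a2 := by linarith
    have : 0 < c - b := by linarith
    gcongr <;> linarith
  have h3 : (64 * b ^ 3) * ((a2 * a3) ^ 2 * c ^ 3) < (a3 ^ 2 * c) * ((a2 * a3) ^ 2 * c ^ 3) := by
    calc _ ≤ _ := h1
      _ < _ := hb2
      _ ≤ _ := h2
      _ = _ := by ring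
  exact lt_of_mul_lt_mul_right h3 hX.le

/-- three-point gap principle -/
lemma three_gap (a1 a2 a3 b c d r1 r2 r3 s1 s2 s3 t1 t2 t3 : ℤ)
    (h0 : 0 < a1) (h12 : a1 < a2) (h23 : a2 < a3)
    (hb : 0 < b) (hbc : b < c) (hcd : c < d)
    (p1 : 0 < r1) (p2 : 0 < r2) (p3 : 0 < r3) (q1 : 0 < s1) (q2 : 0 < s2) (q3 : 0 < s3)
    (o1 : 0 < t1) (o2 : 0 < t2) (o3 : 0 < t3)
    (e1 : r1 ^ 2 = a1 * b + 1) (e2 : r2 ^ 2 = a2 * b + 1) (e3 : r3 ^ 2 = a3 * b + 1)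
    (f1 : s1 ^ 2 = a1 * c + 1) (f2 : s2 ^ 2 = a2 * c + 1) (f3 : s3 ^ 2 = a3 * c + 1)
    (g1 : t1 ^ 2 = a1 * d + 1) (g2 : t2 ^ 2 = a2 * d + 1) (g3 : t3 ^ 2 = a3 * d + 1) :
    256 * (a1 * a2 * a3 * (b * c * d)) ^ 3
      < ((a2 - a1) * (a3 - a1) * (a3 - a2) * ((c - b) * (d - b) * (d - c))) ^ 2 := by
  have hc : 0 < c := by linarith
  have hd : 0 < d := by linarith
  have ha2 : 0 < a2 := by linarith
  have ha3 : 0 < a3 := by linarith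
  obtain ⟨G1, B1⟩ := Gf_bound a1 a2 a3 b c r1 r2 r3 s1 s2 s3 h0 h12 h23 hb hbc p1 p2 p3 q1 q2 q3
    e1 e2 e3 f1 f2 f3
  obtain ⟨G2, B2⟩ := Gf_bound a1 a2 a3 b d r1 r2 r3 t1 t2 t3 h0 h12 h23 hb (by linarith) p1 p2 p3
    o1 o2 o3 e1 e2 e3 g1 g2 g3
  obtain ⟨G3, B3⟩ := Gf_bound a1 a2 a3 c d s1 s2 s3 t1 t2 t3 h0 h12 h23 hc hcd q1 q2 q3 o1 o2 o3
    f1 f2 f3 g1 g2 g3
  have gram : 2 * (Gf a1 a2 a3 r1 r2 r3 s1 s2 s3 * Gf a1 a2 a3 r1 r2 r3 t1 t2 t3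
      * Gf a1 a2 a3 s1 s2 s3 t1 t2 t3) = (a2 - a1) * (a3 - a1) * (a3 - a2) *
        (r1 * (s2 * t3 - s3 * t2) - r2 * (s1 * t3 - s3 * t1) + r3 * (s1 * t2 - s2 * t1)) ^ 2 := by
    have z1 : Gf a1 a2 a3 r1 r2 r3 r1 r2 r3 = 0 := by
      unfold Gf; linear_combination (a3 - a1) * e2 - (a2 - a1) * e3 - (a3 - a2) * e1
    have z2 : Gf a1 a2 a3 s1 s2 s3 s1 s2 s3 = 0 := by
      unfold Gf; linear_combination (a3 - a1) * f2 - (a2 - a1) * f3 - (a3 - a2) * f1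
    have z3 : Gf a1 a2 a3 t1 t2 t3 t1 t2 t3 = 0 := by
      unfold Gf; linear_combination (a3 - a1) * g2 - (a2 - a1) * g3 - (a3 - a2) * g1
    have : (a2 - a1) * (a3 - a1) * (a3 - a2) *
        (r1 * (s2 * t3 - s3 * t2) - r2 * (s1 * t3 - s3 * t1) + r3 * (s1 * t2 - s2 * t1)) ^ 2
        = Gf a1 a2 a3 r1 r2 r3 r1 r2 r3 * Gf a1 a2 a3 s1 s2 s3 s1 s2 s3 * Gf a1 a2 a3 t1 t2 t3 t1 t2 t3
          + 2 * (Gf a1 a2 a3 r1 r2 r3 s1 s2 s3 * Gf a1 a2 a3 r1 r2 r3 t1 t2 t3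
            * Gf a1 a2 a3 s1 s2 s3 t1 t2 t3)
          - Gf a1 a2 a3 r1 r2 r3 r1 r2 r3 * Gf a1 a2 a3 s1 s2 s3 t1 t2 t3 ^ 2
          - Gf a1 a2 a3 s1 s2 s3 s1 s2 s3 * Gf a1 a2 a3 r1 r2 r3 t1 t2 t3 ^ 2
          - Gf a1 a2 a3 t1 t2 t3 t1 t2 t3 * Gf a1 a2 a3 r1 r2 r3 s1 s2 s3 ^ 2 := by
      unfold Gf; ring
    rw [this, z1, z2, z3]; ring
  set X := Gf a1 a2 a3 r1 r2 r3 s1 s2 s3
  set Y := Gf a1 a2 a3 r1 r2 r3 t1 t2 t3
  set Z := Gf a1 a2 a3 s1 s2 s3 t1 t2 t3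
  set Dt := r1 * (s2 * t3 - s3 * t2) - r2 * (s1 * t3 - s3 * t1) + r3 * (s1 * t2 - s2 * t1)
  set Δ := (a2 - a1) * (a3 - a1) * (a3 - a2) with hΔ
  have hΔ0 : 0 < Δ := by
    have : 0 < a2 - a1 := by linarith
    have : 0 < a3 - a1 := by linarith
    have : 0 < a3 - a2 := by linarith
    positivity
  have hDt : Dt ≠ 0 := by
    intro h
    rw [h] at gram
    have : 0 < X * Y * Z := by positivity
    simp at gram
    rcases gram with (h | h) | h <;> linarith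
  have hDt1 : 1 ≤ Dt ^ 2 := by
    have : 0 < Dt ^ 2 := by positivity
    linarith
  have hle : Δ ≤ 2 * (X * Y * Z) := by
    rw [gram]; exact le_mul_of_one_le_right hΔ0.le hDt1
  set A := a1 * a2 * a3
  have hA : 0 < A := by positivity
  clear_value X Y Z Dt Δ A
  have hprod : (X ^ 2 * (64 * A ^ 2 * (b * c) ^ 3)) * (Y ^ 2 * (64 * A ^ 2 * (b * d) ^ 3))
      * (Z ^ 2 * (64 * A ^ 2 * (c * d) ^ 3))
      < (Δ ^ 2 * (c - b) ^ 4) * (Δ ^ 2 * (d - b) ^ 4) * (Δ ^ 2 * (d - c) ^ 4) := by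
    gcongr
  have h4 : Δ ^ 2 * (256 * (A * (b * c * d)) ^ 3) ^ 2
      < Δ ^ 2 * ((Δ * ((c - b) * (d - b) * (d - c))) ^ 2) ^ 2 := by
    calc Δ ^ 2 * (256 * (A * (b * c * d)) ^ 3) ^ 2
        ≤ (2 * (X * Y * Z)) ^ 2 * (256 * (A * (b * c * d)) ^ 3) ^ 2 := by gcongr
      _ = (X ^ 2 * (64 * A ^ 2 * (b * c) ^ 3)) * (Y ^ 2 * (64 * A ^ 2 * (b * d) ^ 3))
          * (Z ^ 2 * (64 * A ^ 2 * (c * d) ^ 3)) := by ring
      _ < _ := hprod
      _ = _ := by ring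
  have h5 := lt_of_mul_lt_mul_left h4 (by positivity)
  exact lt_of_pow_lt_pow_left₀ 2 (by positivity) h5

end Pool.Agent.P.MP_719a5e_nt
end
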