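import Pool.Agent.K.MP_719a5e_nt.C0

-- part Pool.Agent.P.MP_719a5e_nt.Main
section

set_option autoImplicit false

namespace Pool.Agent.P.MP_719a5e_nt

open Filter Topology Polynomial

lemma Sc_bound (k : ℕ) (a1 a2 a3 : ℝ) (h0 : 1 ≤ a1) (h12 : a1 < a2) (h23 : a2 < a3) :
    0 < Sc k a1 a2 a3 ∧ Sc k a1 a2 a3 ≤ (4 * a3 ^ 4) ^ k := by
  have p1 : 0 < a1 := by linarith
  have p2 : 0 < a2 := by linarith
  have p3 : 0 < a3 := by linarith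
  have e : Sc k a1 a2 a3 = (4 * (((a2 - a1) * (a3 - a1) * (a3 - a2)) ^ 2 / (a1 * a2 * a3))) ^ k := by
    unfold Sc
    rw [pow_mul, mul_div_assoc, ← div_pow, ← mul_pow]
    congr 3; ring
  have x1 : 0 < a2 - a1 := by linarith
  have x2 : 0 < a3 - a1 := by linarith
  have x3 : 0 < a3 - a2 := by linarith
  rw [e]
  refine ⟨by positivity, ?_⟩
  gcongr
  rw [div_le_iff₀ (by positivity)]
  calc ((a2 - a1) * (a3 - a1) * (a3 - a2)) ^ 2 ≤ (a2 * a3 * a3) ^ 2 := by gcongr <;> linarith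
    _ = a3 ^ 4 * (1 * a2 * a2) := by ring
    _ ≤ a3 ^ 4 * (a1 * a2 * a3) := by gcongr

lemma pade (a1 a2 a3 b c r1 r2 r3 s1 s2 s3 : ℤ) (h0 : 0 < a1) (h12 : a1 < a2) (h23 : a2 < a3)
    (hb : 0 < b) (hc : 0 < c)
    (p1 : 0 < r1) (p2 : 0 < r2) (p3 : 0 < r3) (q1 : 0 < s1) (q2 : 0 < s2) (q3 : 0 < s3)
    (e1 : r1 ^ 2 = a1 * b + 1) (e2 : r2 ^ 2 = a2 * b + 1) (e3 : r3 ^ 2 = a3 * b + 1)
    (f1 : s1 ^ 2 = a1 * c + 1) (f2 : s2 ^ 2 = a2 * c + 1) (f3 : s3 ^ 2 = a3 * c + 1)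
    (k : ℕ) (hk : 1 ≤ k) :
    (1 : ℝ) ≤ (4 * (a3 : ℝ) ^ 4) ^ k * √c * (b / b ^ (2 * k) / √b)
      + 3 * ((2 ^ 10 * ((b : ℝ) + 1) * a3 ^ 6) ^ k * √(b + 1) * (1 / √c)) := by
  have h2 : 0 < a2 := by linarith
  have h3 : 0 < a3 := by linarith
  have A1 : (1 : ℝ) ≤ a1 := by exact_mod_cast h0
  have A2 : (1 : ℝ) ≤ a2 := by exact_mod_cast h2
  have A3 : (1 : ℝ) ≤ a3 := by exact_mod_cast h3
  have rb : (0 : ℝ) < b := by exact_mod_cast hb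
  have rc : (0 : ℝ) < c := by exact_mod_cast hc
  have A12 : (a1 : ℝ) < a2 := by exact_mod_cast h12
  have A23 : (a2 : ℝ) < a3 := by exact_mod_cast h23
  obtain ⟨hσ, hσ'⟩ := Sc_bound k a1 a2 a3 A1 A12 A23
  set w1 : ℝ := ((a1 : ℝ) * b + 1) / a1 with hw1
  set w2 : ℝ := ((a2 : ℝ) * b + 1) / a2 with hw2
  set w3 : ℝ := ((a3 : ℝ) * b + 1) / a3 with hw3
  have R := fun (e1 e2 e3 : ℕ) (he : e1 + e2 + e3 = 1) => row a1 a2 a3 b a3 h0 h2 h3 (by linarith)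
    h23.le le_rfl hb h12.ne (by linarith : a1 < a3).ne h23.ne k e1 e2 e3 hk he w1 w2 w3 hw1 hw2 hw3
  obtain ⟨x1, x2, x3, S1, X1, X2, X3, X4, X5, X6⟩ := R 1 0 0 rfl
  obtain ⟨y1, y2, y3, S2, Y1, Y2, Y3, Y4, Y5, Y6⟩ := R 0 1 0 rfl
  obtain ⟨z1, z2, z3, S3, Z1, Z2, Z3, Z4, Z5, Z6⟩ := R 0 0 1 rfl
  have o1 : 0 < w1 := by positivity
  have o2 : 0 < w2 := by positivity
  have o3 : 0 < w3 := by positivity
  have hlt : ∀ x y : ℝ, 0 < x → x < y → (y * b + 1) / y < (x * b + 1) / x := fun x y hx hxy => by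
    rw [div_lt_div_iff₀ (by linarith) hx]; nlinarith
  have n12 : w2 < w1 := hlt _ _ (by linarith) A12
  have n23 : w3 < w2 := hlt _ _ (by linarith) A23
  have cast : ∀ r a b : ℤ, r ^ 2 = a * b + 1 → (r : ℝ) ^ 2 = a * b + 1 := fun r a b h => by
    exact_mod_cast h
  have v1 := root_prod a1 b c r1 s1 (by linarith) (by exact_mod_cast p1) (by exact_mod_cast q1)
    (cast _ _ _ e1) (cast _ _ _ f1)
  have v2 := root_prod a2 b c r2 s2 (by linarith) (by exact_mod_cast p2) (by exact_mod_cast q2)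
    (cast _ _ _ e2) (cast _ _ _ f2)
  have v3 := root_prod a3 b c r3 s3 (by linarith) (by exact_mod_cast p3) (by exact_mod_cast q3)
    (cast _ _ _ e3) (cast _ _ _ f3)
  rw [← hw1] at v1
  rw [← hw2] at v2
  rw [← hw3] at v3
  have hu : ∀ a : ℝ, 1 ≤ a → |√((a * b + 1) / a)| ≤ √(b + 1) := fun a ha => by
    rw [abs_of_nonneg (Real.sqrt_nonneg _)]
    apply Real.sqrt_le_sqrt
    rw [div_le_iff₀ (by linarith)]; linarith
  have ht : 0 < √(c : ℝ) := Real.sqrt_pos.mpr rc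
  have F := fun (π1 π2 π3 : ℝ) G1 G2 G3 I0 I1 hne => form_ineq a1 a2 a3 r1 r2 r3 s1 s2 s3 h0 h2 h3
    (Sc k a1 a2 a3) ((2 ^ 10 * ((b : ℝ) + 1) * a3 ^ 6) ^ k) (b / b ^ (2 * k) / √b) √c √(b + 1)
    π1 π2 π3 √w1 √w2 √w3 _ _ _ hσ ht G1 G2 G3 v1 v2 v3 (hu _ A1) (hu _ A2) (hu _ A3)
    (phi_near _ _ A1 rc) (phi_near _ _ A2 rc) (phi_near _ _ A3 rc) I0 I1 hne
  have fin : (1 : ℝ) ≤ Sc k a1 a2 a3 * √c * (b / b ^ (2 * k) / √b)
      + 3 * ((2 ^ 10 * ((b : ℝ) + 1) * a3 ^ 6) ^ k * √(b + 1) * (1 / √c)) := by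
    by_contra hcon
    have hx := not_not.mp fun hne => hcon (F x1 x2 x3 X1 X2 X3 X4 X5 hne)
    have hy := not_not.mp fun hne => hcon (F y1 y2 y3 Y1 Y2 Y3 Y4 Y5 hne)
    have hz := not_not.mp fun hne => hcon (F z1 z2 z3 Z1 Z2 Z3 Z4 Z5 hne)
    have hv : √w1 * √(((a1 : ℝ) * c + 1) / a1) ≠ 0 := by positivity
    obtain ⟨l1, l2, l3, hl, c1, c2, c3⟩ := lin3 _ _ _ _ _ _ _ _ _ _ _ _ hv hx hy hz
    apply hl
    refine indep w1 w2 w3 o1 o2 o3 n12.ne' (n23.trans n12).ne' n23.ne' k hk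
      (C l1 * S1 + C l2 * S2 + C l3 * S3) l1 l2 l3 fun τ => ?_
    have D := (((X6 τ).const_mul l1).add ((Y6 τ).const_mul l2)).add ((Z6 τ).const_mul l3)
    have u1 : τ ^ 2 + w1 ≠ 0 := by positivity
    have u2 : τ ^ 2 + w2 ≠ 0 := by positivity
    have u3 : τ ^ 2 + w3 ≠ 0 := by positivity
    refine (D.congr_deriv ?_).congr_of_eventuallyEq (Eventually.of_forall fun τ => ?_)
    · have t1 := pow_ne_zero k u1
      have t2 := pow_ne_zero k u2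
      have t3 := pow_ne_zero k u3
      simp only [add_zero, pow_succ _ k, mul_pow]
      generalize (τ ^ 2 + w1) ^ k = W1 at *
      generalize (τ ^ 2 + w2) ^ k = W2 at *
      generalize (τ ^ 2 + w3) ^ k = W3 at *
      generalize (τ ^ 2) ^ k = T at *
      generalize τ ^ 2 + w1 = Q1 at *
      generalize τ ^ 2 + w2 = Q2 at *
      generalize τ ^ 2 + w3 = Q3 at *
      have : l1 * (T * τ ^ 2 / (W1 * Q1 * W2 * W3) - (x1 * w1 / Q1 + x2 * w2 / Q2 + x3 * w3 / Q3)) +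
          l2 * (T * τ ^ 2 / (W1 * (W2 * Q2) * W3) - (y1 * w1 / Q1 + y2 * w2 / Q2 + y3 * w3 / Q3)) +
          l3 * (T * τ ^ 2 / (W1 * W2 * (W3 * Q3)) - (z1 * w1 / Q1 + z2 * w2 / Q2 + z3 * w3 / Q3)) =
          l1 * (T * τ ^ 2 / (W1 * Q1 * W2 * W3)) + l2 * (T * τ ^ 2 / (W1 * (W2 * Q2) * W3)) +
          l3 * (T * τ ^ 2 / (W1 * W2 * (W3 * Q3))) - ((l1 * x1 + l2 * y1 + l3 * z1) * (w1 / Q1) +
          (l1 * x2 + l2 * y2 + l3 * z2) * (w2 / Q2) + (l1 * x3 + l2 * y3 + l3 * z3) * (w3 / Q3)) := by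
        ring
      rw [this, c1, c2, c3]
      field_simp
      ring
    · simp only [eval_add, eval_mul, eval_C, Pi.add_apply]
      ring
  refine fin.trans ?_
  gcongr

lemma excl (a1 a2 a3 b c r1 r2 r3 s1 s2 s3 : ℤ) (h0 : 0 < a1) (h12 : a1 < a2) (h23 : a2 < a3)
    (hb : 2 ^ 33 * a3 ^ 18 ≤ b) (hc : 0 < c)
    (p1 : 0 < r1) (p2 : 0 < r2) (p3 : 0 < r3) (q1 : 0 < s1) (q2 : 0 < s2) (q3 : 0 < s3)
    (e1 : r1 ^ 2 = a1 * b + 1) (e2 : r2 ^ 2 = a2 * b + 1) (e3 : r3 ^ 2 = a3 * b + 1)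
    (f1 : s1 ^ 2 = a1 * c + 1) (f2 : s2 ^ 2 = a2 * c + 1) (f3 : s3 ^ 2 = a3 * c + 1) :
    c < b ^ 20 := by
  have h3 : 0 < a3 := by linarith
  have hb0 : 0 < b := lt_of_lt_of_le (by positivity) hb
  have A3 : (1 : ℝ) ≤ a3 := by exact_mod_cast h3
  have rb : (0 : ℝ) < b := by exact_mod_cast hb0
  have rc : (1 : ℝ) ≤ c := by exact_mod_cast hc
  have hbR : (2 : ℝ) ^ 33 * (a3 : ℝ) ^ 18 ≤ b := by exact_mod_cast hb
  obtain ⟨z, hz0, hz⟩ : ∃ z : ℝ, 0 < z ∧ z ^ 12 = b :=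
    ⟨(b : ℝ) ^ ((12 : ℕ) : ℝ)⁻¹, by positivity, Real.rpow_inv_natCast_pow rb.le (by norm_num)⟩
  have q18 : (1 : ℝ) ≤ (a3 : ℝ) ^ 18 := one_le_pow₀ A3
  have hz4 : 4 ≤ z := by
    refine le_of_pow_le_pow_left₀ (n := 12) (by norm_num) hz0.le ?_
    rw [hz]; nlinarith
  have hz1 : 1 ≤ z := by linarith
  have hA : 4 * (a3 : ℝ) ^ 4 ≤ z ^ 3 := by
    refine le_of_pow_le_pow_left₀ (n := 4) (by norm_num) (by positivity) ?_
    rw [← pow_mul, hz]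
    have : (a3 : ℝ) ^ 16 ≤ (a3 : ℝ) ^ 18 := pow_le_pow_right₀ A3 (by norm_num)
    nlinarith
  have hB : 2 ^ 11 * (a3 : ℝ) ^ 6 ≤ z ^ 4 := by
    refine le_of_pow_le_pow_left₀ (n := 3) (by norm_num) (by positivity) ?_
    rw [← pow_mul, hz]
    nlinarith
  have hb1 : (1 : ℝ) ≤ b := by exact_mod_cast hb0
  have hsb : √(b : ℝ) = z ^ 6 := by
    rw [← hz, show z ^ 12 = (z ^ 6) ^ 2 by ring, Real.sqrt_sq (by positivity)]
  have hsb1 : √((b : ℝ) + 1) ≤ 2 * z ^ 6 := by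
    apply Real.sqrt_le_iff.mpr
    refine ⟨by positivity, ?_⟩
    have : (2 * z ^ 6) ^ 2 = 4 * z ^ 12 := by ring
    rw [this, hz]; linarith
  set t := √(c : ℝ) with ht
  have ht1 : 1 ≤ t := Real.one_le_sqrt.mpr rc
  have hz6 : 1 ≤ z ^ 6 := one_le_pow₀ hz1
  obtain ⟨n, hn1, hn2⟩ := exists_nat_pow_near (x := 2 * z ^ 6 * t) (y := z ^ 21) (by nlinarith)
    (one_lt_pow₀ (by linarith) (by norm_num))
  have P := pade a1 a2 a3 b c r1 r2 r3 s1 s2 s3 h0 h12 h23 hb0 hc p1 p2 p3 q1 q2 q3 e1 e2 e3 f1 f2 f3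
    (n + 1) (by omega)
  rw [← ht, hsb] at P
  have T1 : (4 * (a3 : ℝ) ^ 4) ^ (n + 1) * t * (b / b ^ (2 * (n + 1)) / z ^ 6) < 1 / 2 := by
    calc _ ≤ (z ^ 3) ^ (n + 1) * t * (b / b ^ (2 * (n + 1)) / z ^ 6) := by gcongr
      _ = (2 * z ^ 6 * t) / (z ^ 21) ^ (n + 1) / 2 := by
        rw [← hz]
        simp only [← pow_mul]
        rw [show 12 * (2 * (n + 1)) = 3 * (n + 1) + 21 * (n + 1) by ring, pow_add]
        field_simp
      _ < 1 / 2 := by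
        gcongr
        rw [div_lt_one (by positivity)]; exact hn2
  have T2 : 3 * ((2 ^ 10 * ((b : ℝ) + 1) * a3 ^ 6) ^ (n + 1) * √(b + 1) * (1 / t))
      ≤ 6 * z ^ (16 * n + 22) / t := by
    have : 2 ^ 10 * ((b : ℝ) + 1) * a3 ^ 6 ≤ z ^ 16 := by
      calc 2 ^ 10 * ((b : ℝ) + 1) * a3 ^ 6 ≤ 2 ^ 10 * ((b : ℝ) + b) * a3 ^ 6 := by gcongr
        _ = (2 ^ 11 * (a3 : ℝ) ^ 6) * b := by ring
        _ ≤ z ^ 4 * b := by gcongr
        _ = z ^ 16 := by rw [← hz]; ring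
    calc _ ≤ 3 * ((z ^ 16) ^ (n + 1) * (2 * z ^ 6) * (1 / t)) := by gcongr
      _ = _ := by rw [← pow_mul]; ring
  have T3 : t < z ^ (16 * n + 24) := by
    have h1 : 1 / 2 < 6 * z ^ (16 * n + 22) / t := by linarith
    rw [lt_div_iff₀ (by linarith)] at h1
    have h2 : z ^ (16 * n + 24) = z ^ 2 * z ^ (16 * n + 22) := by ring
    have h3 : 0 < z ^ (16 * n + 22) := by positivity
    have h4 : 16 ≤ z ^ 2 := by nlinarith
    nlinarith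
  have T4 : z ^ (21 * n) < z ^ (16 * n + 31) := by
    calc z ^ (21 * n) = (z ^ 21) ^ n := pow_mul _ _ _
      _ ≤ 2 * z ^ 6 * t := hn1
      _ < z * z ^ 6 * z ^ (16 * n + 24) := by gcongr; linarith
      _ = _ := by ring
  have T5 : 21 * n < 16 * n + 31 := (pow_lt_pow_iff_right₀ (by linarith : 1 < z)).mp T4
  have T6 : t < z ^ 120 := T3.trans_le (pow_le_pow_right₀ hz1 (by omega))
  have T7 : (c : ℝ) < (b : ℝ) ^ 20 := by
    calc (c : ℝ) = t ^ 2 := (Real.sq_sqrt (by linarith)).symm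
      _ < (z ^ 120) ^ 2 := by gcongr
      _ = _ := by rw [← hz]; ring
  exact_mod_cast T7

end Pool.Agent.P.MP_719a5e_nt
end

-- part Pool.Agent.P.MP_719a5e_nt.Final
section

set_option autoImplicit false

namespace Pool.Agent.P.MP_719a5e_nt

lemma root_of (a b : ℕ) (h : IsSquare (a * b + 1)) : ∃ r : ℤ, 0 < r ∧ r ^ 2 = (a : ℤ) * b + 1 := by
  obtain ⟨r, hr⟩ := h
  refine ⟨r, ?_, ?_⟩
  · have : r ≠ 0 := by rintro rfl; omega
    exact_mod_cast Nat.pos_of_ne_zero this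
  · rw [sq]; exact_mod_cast hr.symm

lemma grid_gap (a b : Fin 3 → ℕ) (ha : StrictMono a) (hb : StrictMono b) (a0 : 0 < a 0) (b0 : 0 < b 0)
    (h : ∀ i j, IsSquare (a i * b j + 1)) :
    256 * ((a 0 : ℤ) * a 1 * a 2 * (b 0 * b 1 * b 2)) ^ 3 <
      (((a 1 : ℤ) - a 0) * (a 2 - a 0) * (a 2 - a 1) *
        (((b 1 : ℤ) - b 0) * (b 2 - b 0) * (b 2 - b 1))) ^ 2 := by
  choose r hr using fun i j => root_of _ _ (h i j)
  exact three_gap _ _ _ _ _ _ (r 0 0) (r 1 0) (r 2 0) (r 0 1) (r 1 1) (r 2 1) (r 0 2) (r 1 2) (r 2 2)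
    (by exact_mod_cast a0) (by exact_mod_cast ha (by decide : (0 : Fin 3) < 1))
    (by exact_mod_cast ha (by decide : (1 : Fin 3) < 2))
    (by exact_mod_cast b0) (by exact_mod_cast hb (by decide : (0 : Fin 3) < 1))
    (by exact_mod_cast hb (by decide : (1 : Fin 3) < 2))
    (hr _ _).1 (hr _ _).1 (hr _ _).1 (hr _ _).1 (hr _ _).1 (hr _ _).1 (hr _ _).1 (hr _ _).1 (hr _ _).1
    (hr _ _).2 (hr _ _).2 (hr _ _).2 (hr _ _).2 (hr _ _).2 (hr _ _).2 (hr _ _).2 (hr _ _).2 (hr _ _).2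

lemma cube_step (q x y L : ℤ) (hL : 0 ≤ L) (h1 : L ≤ x) (h2 : 64 * x ^ 3 < q ^ 2 * y) :
    64 * L ^ 3 < q ^ 2 * y := lt_of_le_of_lt (by gcongr) h2

lemma no_eight (a : Fin 3 → ℕ) (ha : StrictMono a) (a0 : 0 < a 0) (c : Fin 8 → ℕ) (hc : StrictMono c)
    (hq : a 2 ≤ c 0) (h : ∀ i j, IsSquare (a i * c j + 1)) : False := by
  choose r hr using fun i j => root_of _ _ (h i j)
  have A0 : (0 : ℤ) < a 0 := by exact_mod_cast a0
  have A01 : (a 0 : ℤ) < a 1 := by exact_mod_cast ha (by decide : (0 : Fin 3) < 1)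
  have A12 : (a 1 : ℤ) < a 2 := by exact_mod_cast ha (by decide : (1 : Fin 3) < 2)
  have Q0 : (a 2 : ℤ) ≤ c 0 := by exact_mod_cast hq
  have C : ∀ i j : Fin 8, i < j → (c i : ℤ) < c j := fun i j hij => by exact_mod_cast hc hij
  have hq0 : (0 : ℤ) < a 2 := by linarith
  have P : ∀ j : Fin 8, (0 : ℤ) < c j := fun j => by
    have : (c 0 : ℤ) ≤ c j := by exact_mod_cast hc.monotone (Fin.zero_le j)
    linarith
  have two : ∀ i j : Fin 8, i < j → 64 * (c i : ℤ) ^ 3 < (a 2 : ℤ) ^ 2 * c j := fun i j hij =>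
    two_gap _ _ _ _ _ (r 0 i) (r 1 i) (r 2 i) (r 0 j) (r 1 j) (r 2 j) A0 A01 A12 (P i) (C i j hij)
      (hr _ _).1 (hr _ _).1 (hr _ _).1 (hr _ _).1 (hr _ _).1 (hr _ _).1
      (hr _ _).2 (hr _ _).2 (hr _ _).2 (hr _ _).2 (hr _ _).2 (hr _ _).2
  have C01 := C 0 1 (by decide)
  have C12 := C 1 2 (by decide)
  have three := three_gap _ _ _ _ _ _ (r 0 0) (r 1 0) (r 2 0) (r 0 1) (r 1 1) (r 2 1) (r 0 2) (r 1 2)
    (r 2 2) A0 A01 A12 (P 0) C01 C12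
    (hr _ _).1 (hr _ _).1 (hr _ _).1 (hr _ _).1 (hr _ _).1 (hr _ _).1 (hr _ _).1 (hr _ _).1 (hr _ _).1
    (hr _ _).2 (hr _ _).2 (hr _ _).2 (hr _ _).2 (hr _ _).2 (hr _ _).2 (hr _ _).2 (hr _ _).2 (hr _ _).2
  have ex := fun hb => excl _ _ _ _ _ (r 0 4) (r 1 4) (r 2 4) (r 0 7) (r 1 7) (r 2 7) A0 A01 A12 hb (P 7)
      (hr _ _).1 (hr _ _).1 (hr _ _).1 (hr _ _).1 (hr _ _).1 (hr _ _).1
      (hr _ _).2 (hr _ _).2 (hr _ _).2 (hr _ _).2 (hr _ _).2 (hr _ _).2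
  have t23 := two 2 3 (by decide)
  have t34 := two 3 4 (by decide)
  have t45 := two 4 5 (by decide)
  have t56 := two 5 6 (by decide)
  have t67 := two 6 7 (by decide)
  have P0 := P 0
  have P4 := P 4
  have P5 := P 5
  have P6 := P 6
  have P7 := P 7
  clear two C P hr h
  generalize (a 0 : ℤ) = a1 at *
  generalize (a 1 : ℤ) = a2 at *
  generalize (a 2 : ℤ) = q at *
  generalize (c 0 : ℤ) = c0 at *
  generalize (c 1 : ℤ) = c1 at *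
  generalize (c 2 : ℤ) = c2 at *
  generalize (c 3 : ℤ) = c3 at *
  generalize (c 4 : ℤ) = c4 at *
  generalize (c 5 : ℤ) = c5 at *
  generalize (c 6 : ℤ) = c6 at *
  generalize (c 7 : ℤ) = c7 at *
  have ha2 : 0 < a2 := by linarith
  have P1 : 0 < c1 := by linarith
  have P2 : 0 < c2 := by linarith
  have b2 : 2 ^ 8 * q ^ 3 ≤ c2 := by
    have x1 : 0 < a2 - a1 := by linarith
    have x2 : 0 < q - a1 := by linarith
    have x3 : 0 < q - a2 := by linarith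
    have x4 : 0 < c1 - c0 := by linarith
    have x5 : 0 < c2 - c0 := by linarith
    have x6 : 0 < c2 - c1 := by linarith
    have hX : 0 < a2 ^ 2 * q ^ 4 * c1 ^ 2 * c2 ^ 3 := by positivity
    have h1 : (2 ^ 8 * q ^ 3) * (a2 ^ 2 * q ^ 4 * c1 ^ 2 * c2 ^ 3)
        < c2 * (a2 ^ 2 * q ^ 4 * c1 ^ 2 * c2 ^ 3) := by
      calc (2 ^ 8 * q ^ 3) * (a2 ^ 2 * q ^ 4 * c1 ^ 2 * c2 ^ 3)
          = 256 * (1 ^ 3 * (a2 ^ 2 * 1) * q ^ 3 * (q ^ 3 * (c1 ^ 2 * q) * c2 ^ 3)) := by ring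
        _ ≤ 256 * (a1 ^ 3 * (a2 ^ 2 * a2) * q ^ 3 * (c0 ^ 3 * (c1 ^ 2 * c1) * c2 ^ 3)) := by
          gcongr <;> linarith
        _ = 256 * (a1 * a2 * q * (c0 * c1 * c2)) ^ 3 := by ring
        _ < _ := three
        _ ≤ (a2 * q * q * (c1 * c2 * c2)) ^ 2 := by gcongr <;> linarith
        _ = _ := by ring
    exact (lt_of_mul_lt_mul_right h1 hX.le).le
  have hq2 : 0 < q ^ 2 := by positivity
  have b3 : 2 ^ 30 * q ^ 7 ≤ c3 := by
    have := cube_step q c2 c3 _ (by positivity) b2 t23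
    have e : 64 * (2 ^ 8 * q ^ 3) ^ 3 = q ^ 2 * (2 ^ 30 * q ^ 7) := by ring
    rw [e] at this
    exact (lt_of_mul_lt_mul_left this hq2.le).le
  have b4 : 2 ^ 96 * q ^ 19 ≤ c4 := by
    have := cube_step q c3 c4 _ (by positivity) b3 t34
    have e : 64 * (2 ^ 30 * q ^ 7) ^ 3 = q ^ 2 * (2 ^ 96 * q ^ 19) := by ring
    rw [e] at this
    exact (lt_of_mul_lt_mul_left this hq2.le).le
  have hq1 : 1 ≤ q := hq0
  have q18 : q ^ 18 ≤ q ^ 19 := pow_le_pow_right₀ hq1 (by norm_num)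
  have q19 : 0 < q ^ 18 := by positivity
  have E := ex (by linarith)
  have s5 : c4 ^ 3 ≤ q ^ 2 * c5 := by
    have : 0 < c4 ^ 3 := by positivity
    linarith
  have s6 : c5 ^ 3 ≤ q ^ 2 * c6 := by
    have : 0 < c5 ^ 3 := by positivity
    linarith
  have s7 : c6 ^ 3 ≤ q ^ 2 * c7 := by
    have : 0 < c6 ^ 3 := by positivity
    linarith
  have u6 : c4 ^ 9 ≤ q ^ 8 * c6 := by
    calc c4 ^ 9 = (c4 ^ 3) ^ 3 := by ring
      _ ≤ (q ^ 2 * c5) ^ 3 := by gcongr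
      _ = q ^ 6 * c5 ^ 3 := by ring
      _ ≤ q ^ 6 * (q ^ 2 * c6) := by gcongr
      _ = _ := by ring
  have u7 : c4 ^ 27 ≤ q ^ 26 * c7 := by
    calc c4 ^ 27 = (c4 ^ 9) ^ 3 := by ring
      _ ≤ (q ^ 8 * c6) ^ 3 := by gcongr
      _ = q ^ 24 * c6 ^ 3 := by ring
      _ ≤ q ^ 24 * (q ^ 2 * c7) := by gcongr
      _ = _ := by ring
  have u8 : q ^ 26 ≤ c4 ^ 2 := by
    calc q ^ 26 ≤ q ^ 38 := pow_le_pow_right₀ hq1 (by norm_num)
      _ = (q ^ 19) ^ 2 := by ring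
      _ ≤ c4 ^ 2 := by gcongr; linarith
  have u9 : c4 ^ 27 < c4 ^ 22 := by
    calc c4 ^ 27 ≤ q ^ 26 * c7 := u7
      _ ≤ c4 ^ 2 * c7 := by gcongr
      _ < c4 ^ 2 * c4 ^ 20 := by gcongr
      _ = _ := by ring
  exact absurd (pow_le_pow_right₀ (P4 : (1 : ℤ) ≤ c4) (by norm_num : 22 ≤ 27)) (not_le.mpr u9)

theorem main :
    (∀ a b : Fin 3 → ℕ, StrictMono a → StrictMono b → 0 < a 0 → 0 < b 0 →
      (∀ i j, IsSquare (a i * b j + 1)) →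
      256 * ((a 0 : ℤ) * a 1 * a 2 * (b 0 * b 1 * b 2)) ^ 3 <
        (((a 1 : ℤ) - a 0) * (a 2 - a 0) * (a 2 - a 1) *
          (((b 1 : ℤ) - b 0) * (b 2 - b 0) * (b 2 - b 1))) ^ 2) ∧
    (∀ a : Fin 3 → ℕ, StrictMono a → 0 < a 0 → ∀ B : Finset ℕ,
      (∀ b ∈ B, a 2 ≤ b ∧ ∀ i, IsSquare (a i * b + 1)) → B.card ≤ 7) ∧
    (∀ A B : Finset ℕ, (∀ a ∈ A, 0 < a) → (∀ b ∈ B, 0 < b) →
      (∀ a ∈ A, ∀ b ∈ B, IsSquare (a * b + 1)) → min A.card B.card ≤ 9) := by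
  refine ⟨grid_gap, fun a ha a0 B hB => ?_, fun A B hA hB h => ?_⟩
  · by_contra hc
    have h8 : 8 ≤ B.card := by omega
    have hm := B.orderEmbOfCardLe_mem h8
    exact no_eight a ha a0 _ (B.orderEmbOfCardLe h8).strictMono (hB _ (hm 0)).1
      fun i j => (hB _ (hm j)).2 i
  · by_contra hc
    have hA10 : 10 ≤ A.card := by omega
    have hB10 : 10 ≤ B.card := by omega
    have mA := A.orderEmbOfCardLe_mem hA10
    have mB := B.orderEmbOfCardLe_mem hB10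
    set f := A.orderEmbOfCardLe hA10
    set g := B.orderEmbOfCardLe hB10
    have m3 : StrictMono (fun i : Fin 3 => (⟨i, by omega⟩ : Fin 10)) := fun i j hij => hij
    have m8 : StrictMono (fun i : Fin 8 => (⟨i + 2, by omega⟩ : Fin 10)) := fun i j hij =>
      Nat.add_lt_add_right hij 2
    rcases le_total (f 2) (g 2) with hle | hle
    · exact no_eight _ (f.strictMono.comp m3) (hA _ (mA _)) _ (g.strictMono.comp m8) hle
        fun i j => h _ (mA _) _ (mB _)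
    · exact no_eight _ (g.strictMono.comp m3) (hB _ (mB _)) _ (f.strictMono.comp m8) hle
        fun i j => by rw [mul_comm]; exact h _ (mA _) _ (mB _)

end Pool.Agent.P.MP_719a5e_nt
end
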