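import Mathlib

set_option autoImplicit false

namespace Pool.Agent.P.MP_719a5e_nt

open Finset Polynomial

lemma sqrt_approx (N : ℕ) : ∃ (P : ℝ[X]) (K : ℝ), P.natDegree ≤ N ∧ 0 ≤ K ∧
    ∀ t : ℝ, 0 ≤ t → t ≤ 1 / 2 → |√(1 - t) - P.eval t| ≤ K * t ^ (N + 1) := by
  have hf : ContDiffOn ℝ (N + 1) (fun t : ℝ => √(1 - t)) (Set.Icc 0 (1 / 2)) := by
    refine ContDiffOn.sqrt (by fun_prop) fun t ht => ?_
    have := ht.2
    linarith
  obtain ⟨K, hK⟩ := exists_taylor_mean_remainder_bound (by norm_num) hf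
  refine ⟨∑ k ∈ range (N + 1), C (((k.factorial : ℝ)⁻¹) *
      iteratedDerivWithin k (fun t : ℝ => √(1 - t)) (Set.Icc 0 (1 / 2)) 0) * X ^ k, max K 0, ?_,
      le_max_right _ _, fun t h0 h1 => ?_⟩
  · refine natDegree_sum_le_of_forall_le _ _ fun k hk => ?_
    refine (natDegree_C_mul_X_pow_le _ _).trans ?_
    have := mem_range.mp hk
    omega
  · have h := hK t ⟨h0, h1⟩
    rw [taylor_within_apply, Real.norm_eq_abs, sub_zero] at h
    rw [eval_finset_sum]
    have e : ∑ k ∈ range (N + 1), eval t (C (((k.factorial : ℝ)⁻¹) *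
        iteratedDerivWithin k (fun t : ℝ => √(1 - t)) (Set.Icc 0 (1 / 2)) 0) * X ^ k) =
        ∑ k ∈ range (N + 1), (((k.factorial : ℝ)⁻¹) * t ^ k) •
          iteratedDerivWithin k (fun t : ℝ => √(1 - t)) (Set.Icc 0 (1 / 2)) 0 := by
      refine sum_congr rfl fun k _ => ?_
      simp only [eval_mul, eval_C, eval_pow, eval_X, smul_eq_mul]
      ring
    rw [e]
    refine h.trans ?_
    gcongr
    exact le_max_left _ _

def dd {R : Type*} [CommRing R] (J : Finset ℕ) (G v : ℕ → R) : R :=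
  ∑ j ∈ J, v j * ∏ i ∈ J.erase j, ∏ l ∈ J.erase i, (G i - G l)

lemma map_dd {R S : Type*} [CommRing R] [CommRing S] (φ : R →+* S) (J : Finset ℕ) (G v : ℕ → R) :
    φ (dd J G v) = dd J (fun j => φ (G j)) (fun j => φ (v j)) := by
  simp [dd, map_sum, map_prod]

lemma dd_congr {R : Type*} [CommRing R] (J : Finset ℕ) (G v G' v' : ℕ → R)
    (hG : ∀ j ∈ J, G j = G' j) (hv : ∀ j ∈ J, v j = v' j) : dd J G v = dd J G' v' := by
  refine sum_congr rfl fun j hj => ?_
  rw [hv j hj]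
  congr 1
  refine prod_congr rfl fun i hi => prod_congr rfl fun l hl => ?_
  rw [hG i (mem_of_mem_erase hi), hG l (mem_of_mem_erase hl)]

lemma dd_eq (J : Finset ℕ) (G v : ℕ → ℝ) (hG : Set.InjOn G J) :
    dd J G v = (∏ i ∈ J, ∏ l ∈ J.erase i, (G i - G l)) *
      ∑ j ∈ J, v j / ∏ l ∈ J.erase j, (G j - G l) := by
  rw [dd, mul_sum]
  refine sum_congr rfl fun j hj => ?_
  rw [← mul_prod_erase J _ hj]
  have : ∏ l ∈ J.erase j, (G j - G l) ≠ 0 := prod_ne_zero_iff.mpr fun l hl h =>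
    ne_of_mem_erase hl (hG hj (mem_of_mem_erase hl) (sub_eq_zero.mp h)).symm
  field_simp

lemma dd_ne (J : Finset ℕ) (G : ℕ → ℝ) (hG : Set.InjOn G J) :
    (∏ i ∈ J, ∏ l ∈ J.erase i, (G i - G l)) ≠ 0 :=
  prod_ne_zero_iff.mpr fun j hj => prod_ne_zero_iff.mpr fun l hl h =>
    ne_of_mem_erase hl (hG hj (mem_of_mem_erase hl) (sub_eq_zero.mp h)).symm

lemma dd_bound (J : Finset ℕ) (G v : ℕ → ℝ) (hG : Set.InjOn G J) (d : ℕ) (hJ : J.card = d + 1)
    (P : ℝ[X]) (hP : P.natDegree < d) (Γ ε : ℝ) (hΓ : 1 ≤ Γ) (h0 : ∀ j ∈ J, 0 ≤ G j)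
    (h1 : ∀ j ∈ J, G j ≤ Γ) (he : ∀ j ∈ J, |v j - P.eval (G j)| ≤ ε) :
    |dd J G v| ≤ (d + 1) * (ε * Γ ^ (d * d)) := by
  have hz : dd J G (fun j => P.eval (G j)) = 0 := by
    rw [dd_eq J G _ hG, ← Lagrange.coeff_eq_sum hG (P := P), hJ, Nat.add_sub_cancel,
      coeff_eq_zero_of_natDegree_lt hP, mul_zero]
    refine lt_of_le_of_lt degree_le_natDegree ?_
    rw [hJ]; exact_mod_cast (by omega)
  have e : dd J G v = ∑ j ∈ J, (v j - P.eval (G j)) *
      ∏ i ∈ J.erase j, ∏ l ∈ J.erase i, (G i - G l) := by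
    rw [← sub_zero (dd J G v), ← hz, dd, dd, ← sum_sub_distrib]
    refine sum_congr rfl fun j _ => by ring
  rw [e]
  refine (abs_sum_le_sum_abs _ _).trans ?_
  have : ((d : ℝ) + 1) * (ε * Γ ^ (d * d)) = ∑ j ∈ J, ε * Γ ^ (d * d) := by
    rw [sum_const, hJ]; simp
  rw [this]
  refine sum_le_sum fun j hj => ?_
  rw [abs_mul]
  refine mul_le_mul (he j hj) ?_ (abs_nonneg _) ((abs_nonneg _).trans (he j hj))
  rw [abs_prod]
  have hc : ∀ i ∈ J, (J.erase i).card = d := fun i hi => by rw [card_erase_of_mem hi, hJ]; rfl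
  calc ∏ i ∈ J.erase j, |∏ l ∈ J.erase i, (G i - G l)| ≤ ∏ i ∈ J.erase j, Γ ^ d := by
        refine prod_le_prod (fun _ _ => abs_nonneg _) fun i hi => ?_
        have hi' := mem_of_mem_erase hi
        rw [abs_prod, ← hc i hi', ← prod_const]
        refine prod_le_prod (fun _ _ => abs_nonneg _) fun l hl => ?_
        have hl' := mem_of_mem_erase hl
        rw [abs_le]
        constructor <;> linarith [h0 i hi', h0 l hl', h1 i hi', h1 l hl']
    _ = Γ ^ (d * d) := by rw [prod_const, hc j hj, ← pow_mul]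

lemma interp (S : Finset ℕ) (G v : ℕ → ℝ) (hG : Set.InjOn G S) (d : ℕ) (hd : d ≤ S.card)
    (h : ∀ J ⊆ S, J.card = d + 1 → dd J G v = 0) :
    ∃ L : ℝ[X], L.degree < d ∧ ∀ j ∈ S, L.eval (G j) = v j := by
  obtain ⟨J, hJ, hc⟩ := exists_subset_card_eq hd
  have hGJ : Set.InjOn G J := hG.mono hJ
  refine ⟨Lagrange.interpolate J G v, hc ▸ Lagrange.degree_interpolate_lt _ hGJ, fun j hj => ?_⟩
  by_cases hjJ : j ∈ J
  · exact Lagrange.eval_interpolate_at_node _ hGJ hjJ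
  have hs : insert j J ⊆ S := insert_subset hj hJ
  have hc' : (insert j J).card = d + 1 := by rw [card_insert_of_notMem hjJ, hc]
  have hG' : Set.InjOn G (insert j J : Finset ℕ) := hG.mono hs
  have h0 := h _ hs hc'
  rw [dd_eq _ G _ hG'] at h0
  have h1 := (mul_eq_zero.mp h0).resolve_left (dd_ne _ G hG')
  set Q := Lagrange.interpolate (insert j J) G v with hQ
  have hQd : Q.degree < (insert j J).card := Lagrange.degree_interpolate_lt _ hG'
  have hQe : ∀ i ∈ insert j J, Q.eval (G i) = v i := fun i hi =>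
    Lagrange.eval_interpolate_at_node _ hG' hi
  have h2 := Lagrange.coeff_eq_sum hG' hQd
  rw [sum_congr rfl (fun i hi => by rw [hQe i hi]), h1, hc', Nat.add_sub_cancel] at h2
  have hQd' : Q.degree < J.card := by
    rw [hc, degree_lt_iff_coeff_zero]
    intro m hm
    rcases hm.eq_or_lt with rfl | hlt
    · exact h2
    · refine coeff_eq_zero_of_degree_lt (hQd.trans_le ?_)
      rw [hc']; exact_mod_cast hlt
  have := Lagrange.eq_interpolate_of_eval_eq v hGJ hQd' fun i hi => hQe i (mem_insert_of_mem hi)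
  rw [← this]
  exact hQe j (mem_insert_self _ _)

lemma disc_zero (S : Finset ℕ) (G : ℕ → ℝ) (hG : Set.InjOn G S) (n : ℕ) (hS : 4 * n + 2 < S.card)
    (L : ℝ[X]) (hL : L.degree < (2 * n + 2 : ℕ)) (α β γ : ℝ)
    (h : ∀ j ∈ S, L.eval (G j) ^ 2 = G j ^ (2 * n) * (α * G j ^ 2 + β * G j + γ)) :
    β ^ 2 = 4 * α * γ := by
  have hLn : L.natDegree ≤ 2 * n + 1 := by
    rw [natDegree_le_iff_degree_le]
    exact Order.le_of_lt_succ (by exact_mod_cast hL)
  set Q : ℝ[X] := C α * X ^ 2 + C β * X + C γ with hQ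
  have hQn : Q.natDegree ≤ 2 := by rw [hQ]; compute_degree
  have e : L ^ 2 = (X ^ n) ^ 2 * Q := by
    refine eq_of_natDegree_lt_card_of_eval_eq' _ _ (S.image G) ?_ ?_
    · intro y hy
      obtain ⟨j, hj, rfl⟩ := mem_image.mp hy
      rw [eval_pow, h j hj, hQ]
      simp [← pow_mul, mul_comm n 2]
    · rw [card_image_of_injOn hG]
      refine lt_of_le_of_lt (max_le ?_ ?_) hS
      · exact natDegree_pow_le.trans (by omega)
      · refine natDegree_mul_le.trans ?_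
        rw [← pow_mul, natDegree_X_pow]; omega
  have hd : X ^ n ∣ L := (IsIntegrallyClosed.pow_dvd_pow_iff (by norm_num : 2 ≠ 0)).mp ⟨Q, e⟩
  obtain ⟨L1, rfl⟩ := hd
  rw [mul_pow] at e
  have e2 : L1 ^ 2 = Q := mul_left_cancel₀ (pow_ne_zero _ (pow_ne_zero _ X_ne_zero)) e
  have h1 : L1.natDegree ≤ 1 := by
    have := congrArg natDegree e2
    rw [natDegree_pow] at this
    omega
  obtain ⟨u, w, rfl⟩ := exists_eq_X_add_C_of_natDegree_le_one h1
  have c0 := congrArg (eval 0) e2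
  have c1 := congrArg (eval 1) e2
  have c2 := congrArg (eval (-1)) e2
  simp only [hQ, eval_pow, eval_add, eval_mul, eval_C, eval_X] at c0 c1 c2
  have hγ : γ = w ^ 2 := by linarith
  have hβ : β = 2 * u * w := by linarith
  have hα : α = u ^ 2 := by linarith
  rw [hγ, hβ, hα]; ring

lemma zs_zero (D : ℤ) (s : ℝ) (hs : 1 ≤ s) (h : s * s = (D : ℝ)) (h' : (-s) * (-s) = (D : ℝ))
    (a : ℤ√D) (h1 : |Zsqrtd.lift ⟨s, h⟩ a| < 1 / 2) (h2 : |Zsqrtd.lift ⟨-s, h'⟩ a| < 1 / 2) :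
    a = 0 := by
  simp only [Zsqrtd.lift_apply_apply] at h1 h2
  rw [abs_lt] at h1 h2
  have hre : a.re = 0 := by
    have u1 : (a.re : ℝ) < 1 := by linarith [h1.2, h2.2]
    have u2 : (-1 : ℝ) < a.re := by linarith [h1.1, h2.1]
    have u3 : a.re < 1 := by exact_mod_cast u1
    have u4 : -1 < a.re := by exact_mod_cast u2
    omega
  have him : a.im = 0 := by
    rw [hre] at h1
    have u1 : (a.im : ℝ) < 1 := by
      by_contra hc
      push Not at hc
      nlinarith [h1.2]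
    have u2 : (-1 : ℝ) < a.im := by
      by_contra hc
      push Not at hc
      nlinarith [h1.1]
    have u3 : a.im < 1 := by exact_mod_cast u1
    have u4 : -1 < a.im := by exact_mod_cast u2
    omega
  ext <;> simp [hre, him]

end Pool.Agent.P.MP_719a5e_nt
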