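import Pool.Agent.K.MP_719a5e_nt.C2

set_option autoImplicit false

namespace Pool.Agent.P.MP_719a5e_nt

open Finset Polynomial

lemma approx (N : ℕ) (P : ℝ[X]) (K : ℝ) (hK : 0 ≤ K)
    (hP : ∀ t : ℝ, 0 ≤ t → t ≤ 1 / 2 → |√(1 - t) - P.eval t| ≤ K * t ^ (N + 1))
    (s σ m a R H b U z : ℝ) (hs : 0 < s) (hσ : σ ≤ 2 * s ^ 2) (hR : 2 ≤ R) (hH : 2 ≤ H)
    (ha : 1 ≤ a) (haR : a ≤ (R ^ 2) ^ N) (hb : R ^ 2 ≤ b) (hb' : b ≤ H * R ^ 2) (hU : 0 < U)
    (e : 4 * s ^ 2 * b = U ^ 2 - 2 * σ + m ^ 2 * (U ^ 2)⁻¹) (h1 : 4 * s ^ 2 * b ≤ U ^ 2)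
    (h2 : U ^ 2 ≤ 8 * s ^ 2 * b) (hz : 0 < z) (ez : z ^ 2 = a ^ 2 * b + 1) :
    |z - a * U / (2 * s) * P.eval (2 * σ * (U ^ 2)⁻¹ - m ^ 2 * ((U ^ 2)⁻¹) ^ 2)| ≤
      (1 + K * H) / R := by
  set t := 2 * σ * (U ^ 2)⁻¹ - m ^ 2 * ((U ^ 2)⁻¹) ^ 2 with ht
  have R0 : 0 < R := by linarith
  have R4 : 4 ≤ R ^ 2 := by nlinarith
  have b0 : 0 < b := by linarith
  have U2 : 0 < U ^ 2 := by positivity
  have et : 1 - t = 4 * s ^ 2 * b / U ^ 2 := by
    rw [e, ht]; field_simp; ring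
  have t0 : 0 ≤ t := by
    have : 4 * s ^ 2 * b / U ^ 2 ≤ 1 := (div_le_one U2).mpr h1
    linarith
  have t1 : t ≤ (R ^ 2)⁻¹ := by
    have u1 : (U ^ 2)⁻¹ ≤ (4 * s ^ 2 * R ^ 2)⁻¹ := by
      apply inv_anti₀ (by positivity)
      refine le_trans ?_ h1
      gcongr
    calc t ≤ 2 * σ * (U ^ 2)⁻¹ := by
          rw [ht]; have : 0 ≤ m ^ 2 * ((U ^ 2)⁻¹) ^ 2 := by positivity
          linarith
      _ ≤ 2 * (2 * s ^ 2) * (U ^ 2)⁻¹ := by gcongr
      _ ≤ 2 * (2 * s ^ 2) * (4 * s ^ 2 * R ^ 2)⁻¹ := by gcongr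
      _ = (R ^ 2)⁻¹ := by field_simp; ring
  have t2 : t ≤ 1 / 2 := by
    refine t1.trans ?_
    rw [one_div]
    exact inv_anti₀ (by norm_num) (by linarith)
  set w := √b with hw
  have w2 : w ^ 2 = b := Real.sq_sqrt b0.le
  have w0 : 0 < w := Real.sqrt_pos.mpr b0
  have wR : R ≤ w := by
    by_contra hc
    push Not at hc
    nlinarith
  have es : √(1 - t) = 2 * s * w / U := by
    rw [et, Real.sqrt_eq_iff_mul_self_eq (by positivity) (by positivity), ← w2]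
    field_simp; ring
  have k1 : |z - a * w| ≤ 1 / R := by
    have aw : R ≤ a * w := by nlinarith
    have e3 : (z - a * w) * (z + a * w) = 1 := by
      have : (z - a * w) * (z + a * w) = z ^ 2 - a ^ 2 * w ^ 2 := by ring
      rw [this, ez, w2]; ring
    have p3 : 0 < z + a * w := by linarith
    have e4 : z - a * w = 1 / (z + a * w) := by rw [eq_div_iff p3.ne', e3]
    rw [e4, abs_of_pos (by positivity)]
    exact one_div_le_one_div_of_le R0 (by linarith)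
  have k2 : U / (2 * s) ≤ H * R := by
    rw [div_le_iff₀ (by positivity)]
    refine (pow_le_pow_iff_left₀ hU.le (by positivity) two_ne_zero).mp (h2.trans ?_)
    calc 8 * s ^ 2 * b ≤ 8 * s ^ 2 * (H * R ^ 2) := by gcongr
      _ = 2 * H * (4 * s ^ 2 * R ^ 2) := by ring
      _ ≤ H * H * (4 * s ^ 2 * R ^ 2) := by gcongr
      _ = _ := by ring
  have k3 : |√(1 - t) - P.eval t| ≤ K * ((R ^ 2)⁻¹) ^ (N + 1) := by
    refine (hP t t0 t2).trans ?_
    gcongr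
  have e5 : z - a * U / (2 * s) * P.eval t =
      (z - a * w) + a * (U / (2 * s)) * (√(1 - t) - P.eval t) := by
    rw [es]; field_simp; ring
  rw [e5]
  refine (abs_add_le _ _).trans ?_
  rw [abs_mul, abs_of_pos (by positivity : 0 < a * (U / (2 * s)))]
  calc |z - a * w| + a * (U / (2 * s)) * |√(1 - t) - P.eval t|
      ≤ 1 / R + (R ^ 2) ^ N * (H * R) * (K * ((R ^ 2)⁻¹) ^ (N + 1)) := by gcongr
    _ = (1 + K * H) / R := by
        rw [inv_pow]; field_simp; ring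

lemma exists_rev (Q : ℝ[X]) (M : ℕ) (h : Q.natDegree ≤ M) :
    ∃ Q' : ℝ[X], Q'.natDegree ≤ M ∧ ∀ G : ℝ, G ≠ 0 → Q'.eval G = G ^ M * Q.eval G⁻¹ := by
  refine ⟨∑ k ∈ range (M + 1), C (Q.coeff k) * X ^ (M - k), ?_, fun G hG => ?_⟩
  · refine natDegree_sum_le_of_forall_le _ _ fun k _ => ?_
    exact (natDegree_C_mul_X_pow_le _ _).trans (by omega)
  · rw [eval_eq_sum_range' (Nat.lt_succ_of_le h) G⁻¹, eval_finset_sum, mul_sum]
    refine sum_congr rfl fun k hk => ?_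
    have hk' : k ≤ M := Nat.lt_succ_iff.mp (mem_range.mp hk)
    obtain ⟨j, rfl⟩ := Nat.exists_eq_add_of_le hk'
    simp only [eval_mul, eval_C, eval_pow, eval_X, Nat.add_sub_cancel_left, pow_add, inv_pow]
    field_simp

lemma side (J : Finset ℕ) (n : ℕ) (hJ : J.card = 2 * n + 2 + 1) (γ z μ : ℕ → ℝ) (H ε : ℝ)
    (hH : 1 ≤ H) (hi : Set.InjOn (fun j => γ j ^ 2) J) (h0 : ∀ j ∈ J, 0 < γ j)
    (h1 : ∀ j ∈ J, γ j ≤ H ^ 2) (he : ∀ j ∈ J, |z j - μ j| ≤ ε) (Q : ℝ[X])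
    (hQ : Q.natDegree < 2 * n + 2)
    (hq : ∀ j ∈ J, Q.eval (γ j ^ 2) = (γ j ^ 2) ^ n * γ j * μ j) :
    |dd J (fun j => γ j ^ 2) (fun j => (γ j ^ 2) ^ n * γ j * z j)| ≤
      (((2 * n + 2 : ℕ) : ℝ) + 1) * (H ^ (4 * n + 2) * ε * (H ^ 4) ^ ((2 * n + 2) * (2 * n + 2))) := by
  refine dd_bound J _ _ hi _ hJ Q hQ (H ^ 4) _ (one_le_pow₀ hH) (fun j _ => by positivity)
    (fun j hj => ?_) fun j hj => ?_
  · have := h0 j hj
    calc γ j ^ 2 ≤ (H ^ 2) ^ 2 := by gcongr; exact h1 j hj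
      _ = _ := by ring
  · have := h0 j hj
    rw [hq j hj, ← mul_sub, abs_mul, abs_of_pos (by positivity)]
    have h2 := h1 j hj
    calc (γ j ^ 2) ^ n * γ j * |z j - μ j| ≤ ((H ^ 2) ^ 2) ^ n * H ^ 2 * ε := by
          gcongr; exact he j hj
      _ = _ := by ring

lemma col (p q b sp sq x y : ℝ) (hp : 1 ≤ p) (hpq : p < q) (hb : 1 ≤ b) (p0 : 0 < sp)
    (q0 : 0 < sq) (ep : sp ^ 2 = p) (eq : sq ^ 2 = q) (x0 : 0 < x) (y0 : 0 < y)
    (ex : x ^ 2 = p * b + 1) (ey : y ^ 2 = q * b + 1) :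
    0 < x * sq + y * sp ∧ (x * sq + y * sp) * (x * sq - y * sp) = q - p ∧
      4 * (sp * sq) ^ 2 * b = (x * sq + y * sp) ^ 2 - 2 * (p + q) +
        (q - p) ^ 2 * ((x * sq + y * sp) ^ 2)⁻¹ ∧
      4 * (sp * sq) ^ 2 * b ≤ (x * sq + y * sp) ^ 2 ∧
      (x * sq + y * sp) ^ 2 ≤ 8 * (sp * sq) ^ 2 * b := by
  set U := x * sq + y * sp with hU
  set V := x * sq - y * sp with hV
  have U0 : 0 < U := by positivity
  have e1 : U * V = q - p := by
    have : U * V = x ^ 2 * sq ^ 2 - y ^ 2 * sp ^ 2 := by rw [hU, hV]; ring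
    rw [this, ex, ey, ep, eq]; ring
  have e2 : 4 * (sp * sq) ^ 2 * b = U ^ 2 - 2 * (p + q) + V ^ 2 := by
    have : U ^ 2 + V ^ 2 = 2 * (x ^ 2 * sq ^ 2 + y ^ 2 * sp ^ 2) := by rw [hU, hV]; ring
    rw [mul_pow, ep, eq]
    rw [ex, ey, ep, eq] at this
    linarith
  have V0 : 0 < V := by
    by_contra hc
    push Not at hc
    nlinarith
  have VU : V ≤ U := by
    have : 0 < y * sp := by positivity
    rw [hU, hV]; linarith
  have V2 : V ^ 2 ≤ q - p := by rw [← e1]; nlinarith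
  refine ⟨U0, e1, ?_, by linarith, ?_⟩
  · rw [e2, ← e1]; field_simp
  · have : p + q ≤ 2 * (sp * sq) ^ 2 * b := by
      rw [mul_pow, ep, eq]
      have : p + q ≤ 2 * (p * q) := by nlinarith
      have h : 0 ≤ 2 * (p * q) := by nlinarith
      nlinarith
    nlinarith [sq_nonneg V]

lemma tiny (N : ℕ) : ∃ E H0 : ℕ, ∀ (p q A H B : ℕ) (S : Finset ℕ), 0 < p → p < q → q < A →
    H0 ≤ H → q ≤ H → H ^ E ≤ B → A ≤ B ^ (2 * N) →
    (∀ b ∈ S, B ≤ b ∧ b ≤ H * B ∧ IsSquare (p * b + 1) ∧ IsSquare (q * b + 1) ∧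
      IsSquare (A * b + 1)) → S.card ≤ 8 * N + 2 := by
  obtain ⟨P, K, hPd, hK, hP⟩ := sqrt_approx N
  set n := 2 * N with hn
  set d := 2 * n + 2 with hd
  refine ⟨2 * (4 * n + 2 + 2 + 4 * (d * d) + 1), ⌈K⌉₊ + 2 * d + 4, ?_⟩
  intro p q A H B S hp hpq hqA hH hqH hHB hAB hS
  by_contra hc
  have hc : 4 * n + 2 < S.card := by omega
  obtain ⟨b1, hb1⟩ : S.Nonempty := card_pos.mp (by omega)
  have root : ∀ a b : ℕ, IsSquare (a * b + 1) → ∃ r : ℤ, 0 < r ∧ (r : ℝ) ^ 2 = (a : ℝ) * b + 1 := by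
    rintro a b ⟨r, hr⟩
    refine ⟨r, ?_, ?_⟩
    · have : r ≠ 0 := by rintro rfl; omega
      exact_mod_cast Nat.pos_of_ne_zero this
    · rw [sq]; exact_mod_cast hr.symm
  choose! x hx using fun b hb => root p b (hS b hb).2.2.1
  choose! y hy using fun b hb => root q b (hS b hb).2.2.2.1
  choose! z hz using fun b hb => root A b (hS b hb).2.2.2.2
  have P1 : (1 : ℝ) ≤ p := by exact_mod_cast hp
  have PQ : (p : ℝ) < q := by exact_mod_cast hpq
  have QA : (q : ℝ) < A := by exact_mod_cast hqA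
  have QH : (q : ℝ) ≤ H := by exact_mod_cast hqH
  have HK : K + 2 * d + 4 ≤ H := by
    have : ((⌈K⌉₊ + 2 * d + 4 : ℕ) : ℝ) ≤ H := by exact_mod_cast hH
    push_cast at this
    linarith [Nat.le_ceil K]
  have d0 : (0 : ℝ) ≤ d := by positivity
  have H2 : (2 : ℝ) ≤ H := by linarith
  set sp := √(p : ℝ) with hsp
  set sq := √(q : ℝ) with hsq
  have p0 : 0 < sp := Real.sqrt_pos.mpr (by linarith)
  have q0 : 0 < sq := Real.sqrt_pos.mpr (by linarith)
  have ep : sp ^ 2 = p := Real.sq_sqrt (by linarith)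
  have eq : sq ^ 2 = q := Real.sq_sqrt (by linarith)
  set R := √(B : ℝ) with hR
  have eR : R ^ 2 = B := Real.sq_sqrt (by positivity)
  have RH : (H : ℝ) ^ (4 * n + 2 + 2 + 4 * (d * d) + 1) ≤ R := by
    refine Real.le_sqrt_of_sq_le ?_
    rw [← pow_mul, mul_comm]
    exact_mod_cast hHB
  have R2 : 2 ≤ R := by
    refine le_trans ?_ RH
    exact H2.trans (le_self_pow₀ (by linarith) (by omega))
  set a := √(A : ℝ) with ha
  have ea : a ^ 2 = A := Real.sq_sqrt (by positivity)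
  have a1 : 1 ≤ a := Real.le_sqrt_of_sq_le (by linarith)
  have aR : a ≤ (R ^ 2) ^ N := by
    rw [eR]
    refine Real.sqrt_le_iff.mpr ⟨by positivity, ?_⟩
    rw [← pow_mul, mul_comm]
    exact_mod_cast hAB
  set s := sp * sq with hs
  have s0 : 0 < s := by positivity
  have es : s ^ 2 = p * q := by rw [hs, mul_pow, ep, eq]
  have s1 : 1 ≤ s := by
    by_contra h
    push Not at h
    nlinarith
  set m : ℝ := q - p with hm
  have m0 : 0 < m := by linarith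
  set U : ℕ → ℝ := fun b => x b * sq + y b * sp with hU
  set V : ℕ → ℝ := fun b => x b * sq - y b * sp with hV
  have bB : ∀ b ∈ S, R ^ 2 ≤ b ∧ (b : ℝ) ≤ H * R ^ 2 := fun b hb => by
    rw [eR]
    exact ⟨by exact_mod_cast (hS b hb).1, by exact_mod_cast (hS b hb).2.1⟩
  have hcol : ∀ b ∈ S, 0 < U b ∧ U b * V b = m ∧
      4 * s ^ 2 * b = U b ^ 2 - 2 * (p + q) + m ^ 2 * (U b ^ 2)⁻¹ ∧
      4 * s ^ 2 * b ≤ U b ^ 2 ∧ U b ^ 2 ≤ 8 * s ^ 2 * b := fun b hb =>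
    col p q b sp sq (x b) (y b) P1 PQ (by nlinarith [(bB b hb).1]) p0 q0 ep eq
      (by exact_mod_cast (hx b hb).1) (by exact_mod_cast (hy b hb).1) (hx b hb).2 (hy b hb).2
  have hVe : ∀ b ∈ S, V b = m / U b := fun b hb => by
    rw [eq_div_iff (hcol b hb).1.ne', mul_comm, (hcol b hb).2.1]
  have hrat : ∀ b ∈ S, ∀ c ∈ S, 0 < U b * V c ∧ U b * V c ≤ (H : ℝ) ^ 2 := fun b hb c hc => by
    obtain ⟨u0, -, -, -, u2⟩ := hcol b hb
    obtain ⟨v0, -, -, v1, -⟩ := hcol c hc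
    rw [hVe c hc]
    refine ⟨by positivity, ?_⟩
    have h1 : U b ≤ H * U c := by
      refine (pow_le_pow_iff_left₀ u0.le (by positivity) two_ne_zero).mp (u2.trans ?_)
      calc 8 * s ^ 2 * b ≤ 8 * s ^ 2 * (H * R ^ 2) := by gcongr; exact (bB b hb).2
        _ = 2 * H * (4 * s ^ 2 * R ^ 2) := by ring
        _ ≤ H * H * (4 * s ^ 2 * c) := by gcongr; exact (bB c hc).1
        _ ≤ H * H * U c ^ 2 := by gcongr
        _ = _ := by ring
    calc U b * (m / U c) ≤ H * U c * (H / U c) := by gcongr; linarith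
      _ = _ := by field_simp
  have hinj : ∀ b ∈ S, ∀ c ∈ S, U b ^ 2 = U c ^ 2 → b = c := fun b hb c hc h => by
    have h1 := (hcol b hb).2.2.1
    rw [h, ← (hcol c hc).2.2.1] at h1
    exact_mod_cast mul_left_cancel₀ (by positivity) h1
  have W0 := (hcol b1 hb1).1
  obtain ⟨W, hW⟩ : ∃ W, W = U b1 := ⟨_, rfl⟩
  rw [← hW] at W0
  have hV1 : V b1 = m / W := by rw [hW]; exact hVe b1 hb1
  have i1 : Set.InjOn (fun b => (U b * V b1) ^ 2) S := fun b hb c hc h => by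
    refine hinj b hb c hc ?_
    simp only [mul_pow, hV1] at h
    exact mul_right_cancel₀ (by positivity) h
  have i2 : Set.InjOn (fun b => (W * V b) ^ 2) S := fun b hb c hc h => by
    refine hinj b hb c hc ?_
    simp only [mul_pow, hVe b hb, hVe c hc] at h
    have := (hcol b hb).1
    have := (hcol c hc).1
    have h2 := mul_left_cancel₀ (by positivity) h
    field_simp at h2
    exact h2.symm
  set T : ℝ[X] := P.comp (C (2 * (p + q : ℝ)) * X - C (m ^ 2) * X ^ 2) with hT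
  have Td : T.natDegree ≤ n := by
    refine natDegree_comp_le.trans ?_
    have : (C (2 * (p + q : ℝ)) * X - C (m ^ 2) * X ^ 2).natDegree ≤ 2 := by compute_degree
    calc _ ≤ N * 2 := Nat.mul_le_mul hPd this
      _ = n := by omega
  set μ : ℕ → ℝ := fun b => a * U b / (2 * s) * T.eval (U b ^ 2)⁻¹ with hμ
  have hap : ∀ b ∈ S, |(z b : ℝ) - μ b| ≤ (1 + K * H) / R := fun b hb => by
    obtain ⟨u0, -, u1, u2, u3⟩ := hcol b hb
    have := approx N P K hK hP s (p + q) m a R H b (U b) (z b) s0 (by nlinarith) R2 H2 a1 aR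
      (bB b hb).1 (bB b hb).2 u0 u1 u2 u3 (by exact_mod_cast (hz b hb).1)
      (by rw [ea]; exact (hz b hb).2)
    simpa only [hμ, hT, eval_comp, eval_sub, eval_mul, eval_C, eval_pow, eval_X] using this
  have lin : ∀ c : ℝ, (T.comp (C c * X)).natDegree ≤ n := fun c => by
    refine natDegree_comp_le.trans ?_
    have : (C c * X).natDegree ≤ 1 := by compute_degree
    calc _ ≤ n * 1 := Nat.mul_le_mul Td this
      _ = n := by omega
  obtain ⟨T1, T1d, hT1⟩ := exists_rev (T.comp (C ((m / W) ^ 2) * X)) (n + 1)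
    ((lin _).trans (by omega))
  have small : (((2 * n + 2 : ℕ) : ℝ) + 1) * (H ^ (4 * n + 2) * ((1 + K * H) / R) *
      ((H : ℝ) ^ 4) ^ ((2 * n + 2) * (2 * n + 2))) < 1 / 2 := by
    rw [← hd]
    have R0 : 0 < R := by linarith
    have h1 : 1 + K * H ≤ (H : ℝ) ^ 2 := by nlinarith
    have h2 : (d : ℝ) + 1 < H / 2 := by linarith
    calc _ < (H / 2 : ℝ) * (H ^ (4 * n + 2) * ((1 + K * H) / R) * ((H : ℝ) ^ 4) ^ (d * d)) := by
          gcongr
      _ ≤ (H / 2 : ℝ) * (H ^ (4 * n + 2) * (H ^ 2 / R) * ((H : ℝ) ^ 4) ^ (d * d)) := by gcongr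
      _ = (H : ℝ) ^ (4 * n + 2 + 2 + 4 * (d * d) + 1) / R / 2 := by ring
      _ ≤ 1 / 2 := by
          gcongr
          exact (div_le_one R0).mpr RH
  set D : ℤ := p * q with hD
  have hs1 : s * s = (D : ℝ) := by rw [← pow_two, es, hD]; push_cast; ring
  have hs2 : (-s) * (-s) = (D : ℝ) := by rw [← hs1]; ring
  set g : ℕ → ℤ√D := fun b => ⟨q * x b * x b1 - p * y b * y b1, y b * x b1 - x b * y b1⟩ with hg
  have g1 : ∀ b, Zsqrtd.lift ⟨s, hs1⟩ (g b) = U b * V b1 := fun b => by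
    simp only [Zsqrtd.lift_apply_apply, hg, hU, hV, hs]
    push_cast
    rw [← ep, ← eq]; ring
  have g2 : ∀ b, Zsqrtd.lift ⟨-s, hs2⟩ (g b) = W * V b := fun b => by
    simp only [Zsqrtd.lift_apply_apply, hg, hW, hU, hV, hs]
    push_cast
    rw [← ep, ← eq]; ring
  have hzero : ∀ J ⊆ S, J.card = d + 1 →
      dd J (fun b => (U b * V b1) ^ 2) (fun b => ((U b * V b1) ^ 2) ^ n * (U b * V b1) * z b) = 0 := by
    intro J hJ hJc
    have h0 := zs_zero D s s1 hs1 hs2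
      (dd J (fun b => g b ^ 2) (fun b => (g b ^ 2) ^ n * g b * (z b : ℤ√D))) ?_ ?_
    · have := congrArg (Zsqrtd.lift ⟨s, hs1⟩) h0
      rw [map_dd, map_zero] at this
      simpa only [map_mul, map_pow, g1, map_intCast] using this
    · rw [map_dd]
      simp only [map_mul, map_pow, g1, map_intCast]
      refine lt_of_le_of_lt (side J n hJc (fun b => U b * V b1) _ μ H _ (by linarith) (i1.mono hJ)
        (fun b hb => (hrat b (hJ hb) b1 hb1).1) (fun b hb => (hrat b (hJ hb) b1 hb1).2)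
        (fun b hb => hap b (hJ hb)) (C (a * W / (2 * s * m)) * T1) ?_ fun b hb => ?_) small
      · exact lt_of_le_of_lt ((natDegree_C_mul_le _ _).trans T1d) (by omega)
      · have u0 := (hcol b (hJ hb)).1
        rw [eval_mul, eval_C, hT1 _ (pow_pos (hrat b (hJ hb) b1 hb1).1 2).ne', eval_comp, eval_mul,
          eval_C, eval_X, hV1]
        have : (m / W) ^ 2 * ((U b * (m / W)) ^ 2)⁻¹ = (U b ^ 2)⁻¹ := by field_simp
        rw [this, pow_succ]
        simp only [hμ]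
        field_simp
    · rw [map_dd]
      simp only [map_mul, map_pow, g2, map_intCast]
      refine lt_of_le_of_lt (side J n hJc (fun b => W * V b) _ μ H _ (by linarith) (i2.mono hJ)
        (fun b hb => hW ▸ (hrat b1 hb1 b (hJ hb)).1) (fun b hb => hW ▸ (hrat b1 hb1 b (hJ hb)).2)
        (fun b hb => hap b (hJ hb))
        (C (a * W * m / (2 * s)) * (X ^ n * T.comp (C (((W * m) ^ 2)⁻¹) * X))) ?_ fun b hb => ?_) small
      · refine lt_of_le_of_lt ((natDegree_C_mul_le _ _).trans natDegree_mul_le) ?_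
        have := lin ((W * m) ^ 2)⁻¹
        rw [natDegree_X_pow]; omega
      · have u0 := (hcol b (hJ hb)).1
        simp only [eval_mul, eval_C, eval_pow, eval_X, eval_comp, hVe b (hJ hb), hμ]
        have : ((W * m) ^ 2)⁻¹ * (W * (m / U b)) ^ 2 = (U b ^ 2)⁻¹ := by field_simp
        rw [this]
        field_simp
  obtain ⟨L, hL, hLe⟩ := interp S _ _ i1 d (by omega) hzero
  have fin := disc_zero S _ i1 n hc L hL (A * W ^ 2 / (4 * s ^ 2 * m ^ 2))
    (1 - A * (p + q) / (2 * s ^ 2)) (A * m ^ 4 / (4 * s ^ 2 * W ^ 2)) fun b hb => by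
      obtain ⟨u0, -, u1, -, -⟩ := hcol b hb
      have eb : (b : ℝ) = (U b ^ 2 - 2 * (p + q) + m ^ 2 * (U b ^ 2)⁻¹) / (4 * s ^ 2) := by
        rw [← u1]; field_simp
      rw [hLe b hb, mul_pow _ (z b : ℝ), (hz b hb).2, hV1, mul_pow _ (U b * (m / W)),
        ← pow_mul _ n 2, mul_comm n 2, mul_assoc, eb]
      congr 1
      field_simp
      ring
  rw [es] at fin
  have P0 : (0 : ℝ) < p := by linarith
  have Q0 : (0 : ℝ) < q := by linarith
  have f2 : ((A : ℝ) - p) * (A - q) = 0 := by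
    field_simp at fin
    rw [hm] at fin
    have h : 4 * (p * q) * (((A : ℝ) - p) * (A - q)) = 0 := by linarith
    exact (mul_eq_zero.mp h).resolve_left (by positivity)
  rcases mul_eq_zero.mp f2 with h | h <;> linarith

end Pool.Agent.P.MP_719a5e_nt
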