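import Pool.Agent.K.MP_719a5e_nt.C0
import Pool.Agent.K.MP_719a5e_nt.C3
import Pool.Agent.K.MP_719a5e_nt.C1

-- part Pool.Agent.P.MP_719a5e_nt.Sign
section

set_option autoImplicit false

namespace Pool.Agent.P.MP_719a5e_nt

open Finset

lemma plotkin {ι : Type*} (S : Finset ι) (e : ℕ) (f : ι → ℕ) (hf : ∀ i ∈ S, f i ≤ e) :
    e * S.card ^ 2 ≤ 2 * ∑ i ∈ S, ∑ j ∈ S, (min (f i) (f j) + min (e - f i) (e - f j)) := by
  rcases Nat.eq_zero_or_pos e with rfl | he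
  · simp
  have key : ∀ i ∈ S, ∀ j ∈ S, ((f i : ℤ) * f j + (e - f i) * (e - f j)) ≤
      e * ((min (f i) (f j) + min (e - f i) (e - f j) : ℕ) : ℤ) := by
    intro i hi j hj
    have h1 := hf i hi
    have h2 := hf j hj
    have h1' : (f i : ℤ) ≤ e := by exact_mod_cast h1
    have h2' : (f j : ℤ) ≤ e := by exact_mod_cast h2
    have p1 : (0 : ℤ) ≤ f i := by positivity
    have p2 : (0 : ℤ) ≤ f j := by positivity
    rcases le_total (f i) (f j) with h | h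
    · have : min (f i) (f j) + min (e - f i) (e - f j) = f i + (e - f j) := by omega
      rw [this]
      push_cast [Nat.cast_sub h2]
      nlinarith [mul_nonneg p1 (sub_nonneg.mpr h2')]
    · have : min (f i) (f j) + min (e - f i) (e - f j) = f j + (e - f i) := by omega
      rw [this]
      push_cast [Nat.cast_sub h1]
      nlinarith [mul_nonneg p2 (sub_nonneg.mpr h1')]
  have hs : ∑ i ∈ S, ∑ j ∈ S, ((f i : ℤ) * f j + (e - f i) * (e - f j)) ≤
      e * ((∑ i ∈ S, ∑ j ∈ S, (min (f i) (f j) + min (e - f i) (e - f j)) : ℕ) : ℤ) := by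
    push_cast
    rw [mul_sum]
    refine sum_le_sum fun i hi => ?_
    rw [mul_sum]
    refine sum_le_sum fun j hj => ?_
    have := key i hi j hj
    push_cast at this
    exact this
  have hl : ∑ i ∈ S, ∑ j ∈ S, ((f i : ℤ) * f j + (e - f i) * (e - f j)) =
      (∑ i ∈ S, (f i : ℤ)) ^ 2 + (S.card * e - ∑ i ∈ S, (f i : ℤ)) ^ 2 := by
    have : (S.card : ℤ) * e - ∑ i ∈ S, (f i : ℤ) = ∑ i ∈ S, ((e : ℤ) - f i) := by
      rw [sum_sub_distrib]; simp
    rw [this, sq, sq, sum_mul_sum, sum_mul_sum, ← sum_add_distrib]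
    refine sum_congr rfl fun i _ => ?_
    rw [← sum_add_distrib]
  rw [hl] at hs
  set T : ℕ := ∑ i ∈ S, ∑ j ∈ S, (min (f i) (f j) + min (e - f i) (e - f j))
  set σ : ℤ := ∑ i ∈ S, (f i : ℤ)
  have he' : (0 : ℤ) < e := by exact_mod_cast he
  have h3 : (e : ℤ) * (e * S.card ^ 2) ≤ e * (2 * T) := by
    nlinarith [sq_nonneg (2 * σ - S.card * e)]
  have := le_of_mul_le_mul_left h3 he'
  exact_mod_cast this

lemma gcd_prod {ι : Type*} (S : Finset ι) (m : ℕ) (hm : 0 < m) (u : ι → ℕ)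
    (hu : ∀ i ∈ S, u i ∣ m) :
    m ^ (S.card ^ 2) ≤
      (∏ i ∈ S, ∏ j ∈ S, (Nat.gcd (u i) (u j) * Nat.gcd (m / u i) (m / u j))) ^ 2 := by
  have u0 : ∀ i ∈ S, u i ≠ 0 := fun i hi h => by
    have := hu i hi; rw [h, zero_dvd_iff] at this; omega
  have v0 : ∀ i ∈ S, m / u i ≠ 0 := fun i hi =>
    (Nat.div_pos (Nat.le_of_dvd hm (hu i hi)) (Nat.pos_of_ne_zero (u0 i hi))).ne'
  have g0 : ∀ i ∈ S, ∀ j ∈ S, Nat.gcd (u i) (u j) * Nat.gcd (m / u i) (m / u j) ≠ 0 :=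
    fun i hi j _ => mul_ne_zero (Nat.gcd_ne_zero_left (u0 i hi)) (Nat.gcd_ne_zero_left (v0 i hi))
  have r0 : ∀ i ∈ S, ∏ j ∈ S, (Nat.gcd (u i) (u j) * Nat.gcd (m / u i) (m / u j)) ≠ 0 :=
    fun i hi => prod_ne_zero_iff.mpr (g0 i hi)
  have P0 : (∏ i ∈ S, ∏ j ∈ S, (Nat.gcd (u i) (u j) * Nat.gcd (m / u i) (m / u j))) ≠ 0 :=
    prod_ne_zero_iff.mpr r0
  refine Nat.le_of_dvd (by positivity) ?_
  rw [← Nat.factorization_prime_le_iff_dvd (by positivity) (by positivity)]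
  intro p _
  rw [Nat.factorization_pow, Nat.factorization_pow, Nat.factorization_prod r0]
  simp only [Finsupp.smul_apply, smul_eq_mul, Finsupp.coe_finset_sum, Finset.sum_apply]
  have h := plotkin S (m.factorization p) (fun i => (u i).factorization p) fun i hi =>
    (Nat.factorization_le_iff_dvd (u0 i hi) hm.ne').mpr (hu i hi) p
  rw [mul_comm]
  refine h.trans (le_of_eq ?_)
  congr 1
  refine sum_congr rfl fun i hi => ?_
  rw [Nat.factorization_prod (g0 i hi)]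
  simp only [Finsupp.coe_finset_sum, Finset.sum_apply]
  refine sum_congr rfl fun j hj => ?_
  rw [Nat.factorization_mul (Nat.gcd_ne_zero_left (u0 i hi)) (Nat.gcd_ne_zero_left (v0 i hi)),
    Nat.factorization_gcd (u0 i hi) (u0 j hj), Nat.factorization_gcd (v0 i hi) (v0 j hj),
    Nat.factorization_div (hu i hi), Nat.factorization_div (hu j hj)]
  simp

lemma pair_le (p q b c x y x' y' : ℕ) (hp : 0 < p) (hpq : p < q) (hb : 0 < b) (hc : 0 < c)
    (hbc : b ≠ c) (ρ : ℕ) (h1 : b ≤ ρ * c) (h2 : c ≤ ρ * b)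
    (ex : x * x = p * b + 1) (ey : y * y = q * b + 1)
    (ex' : x' * x' = p * c + 1) (ey' : y' * y' = q * c + 1) (u v u' v' : ℕ)
    (hu : (u : ℤ) ∣ (y : ℤ) - x) (hv : (v : ℤ) ∣ (y : ℤ) + x)
    (hu' : (u' : ℤ) ∣ (y' : ℤ) - x') (hv' : (v' : ℤ) ∣ (y' : ℤ) + x') :
    (Nat.gcd u u' * Nat.gcd v v') ^ 2 * (p * q) ≤ (q - p) ^ 2 * ρ := by
  have ex1 : (x : ℤ) ^ 2 = p * b + 1 := by rw [sq]; exact_mod_cast ex
  have ey1 : (y : ℤ) ^ 2 = q * b + 1 := by rw [sq]; exact_mod_cast ey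
  have ex2 : (x' : ℤ) ^ 2 = p * c + 1 := by rw [sq]; exact_mod_cast ex'
  have ey2 : (y' : ℤ) ^ 2 = q * c + 1 := by rw [sq]; exact_mod_cast ey'
  have pos : ∀ t n : ℕ, t * t = n + 1 → (0 : ℤ) < t := fun t n h => by
    have : t ≠ 0 := by rintro rfl; omega
    exact_mod_cast Nat.pos_of_ne_zero this
  have hP : (0 : ℤ) < p := by exact_mod_cast hp
  have hQ : (p : ℤ) < q := by exact_mod_cast hpq
  have hB : (0 : ℤ) < b := by exact_mod_cast hb
  have hC : (0 : ℤ) < c := by exact_mod_cast hc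
  have hs := cross_sq p q b c x y x' y' hP (by linarith) hB hC (pos _ _ ex) (pos _ _ ey)
    (pos _ _ ex') (pos _ _ ey') ex1 ey1 ex2 ey2
  set g : ℕ := Nat.gcd u u' * Nat.gcd v v' with hg
  have d1 : (g : ℤ) ∣ ((y : ℤ) - x) * (y' + x') := by
    rw [hg]; push_cast
    exact mul_dvd_mul ((Int.natCast_dvd_natCast.mpr (Nat.gcd_dvd_left _ _)).trans hu)
      ((Int.natCast_dvd_natCast.mpr (Nat.gcd_dvd_right _ _)).trans hv')
  have d2 : (g : ℤ) ∣ ((y' : ℤ) - x') * (y + x) := by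
    rw [hg]; push_cast
    exact mul_dvd_mul ((Int.natCast_dvd_natCast.mpr (Nat.gcd_dvd_right _ _)).trans hu')
      ((Int.natCast_dvd_natCast.mpr (Nat.gcd_dvd_left _ _)).trans hv)
  set δ : ℤ := x * y' - y * x' with hδ
  set σ : ℤ := x * y' + y * x' with hσ
  have d3 : (g : ℤ) ∣ 2 * δ := by
    have := dvd_sub d2 d1
    have e : ((y' : ℤ) - x') * (y + x) - ((y : ℤ) - x) * (y' + x') = 2 * δ := by rw [hδ]; ring
    rwa [e] at this
  have e : δ * σ = (q - p) * ((c : ℤ) - b) := by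
    have : δ * σ = (x : ℤ) ^ 2 * y' ^ 2 - y ^ 2 * x' ^ 2 := by rw [hδ, hσ]; ring
    rw [this, ex1, ey1, ex2, ey2]; ring
  have hδ0 : δ ≠ 0 := by
    intro h
    rw [h, zero_mul] at e
    rcases mul_eq_zero.mp e.symm with h | h
    · linarith
    · exact hbc (by exact_mod_cast (by linarith : (b : ℤ) = c))
  have g2 : (g : ℤ) ^ 2 ≤ 4 * δ ^ 2 := by
    have := Int.le_of_dvd (by positivity) (pow_dvd_pow_of_dvd d3 2)
    linarith
  have hbc2 : ((c : ℤ) - b) ^ 2 ≤ ρ * (b * c) := by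
    have h1' : (b : ℤ) ≤ ρ * c := by exact_mod_cast h1
    have h2' : (c : ℤ) ≤ ρ * b := by exact_mod_cast h2
    rcases le_total (b : ℤ) c with h | h
    · nlinarith
    · nlinarith
  have fin : (g : ℤ) ^ 2 * (p * q) * (b * c) ≤ (q - p) ^ 2 * ρ * (b * c) := by
    calc (g : ℤ) ^ 2 * (p * q) * (b * c) ≤ 4 * δ ^ 2 * (p * q) * (b * c) := by
          have : (0 : ℤ) < q := by linarith
          gcongr
      _ = δ ^ 2 * (4 * (p * q * b * c)) := by ring
      _ ≤ δ ^ 2 * σ ^ 2 := by gcongr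
      _ = (q - p) ^ 2 * ((c : ℤ) - b) ^ 2 := by rw [← mul_pow, e, mul_pow]
      _ ≤ (q - p) ^ 2 * (ρ * (b * c)) := by gcongr
      _ = _ := by ring
  have := le_of_mul_le_mul_right fin (by positivity)
  have h4 : ((q - p : ℕ) : ℤ) = q - p := by push_cast [Nat.cast_sub hpq.le]; ring
  rw [← h4] at this
  exact_mod_cast this

lemma sign (p q : ℕ) (hp : 0 < p) (hpq : p < q) (S : Finset ℕ) (ρ k : ℕ)
    (hS : ∀ b ∈ S, 0 < b ∧ IsSquare (p * b + 1) ∧ IsSquare (q * b + 1))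
    (hρ : ∀ b ∈ S, ∀ c ∈ S, c ≤ ρ * b) (hk : S.card = k + 1) : p ^ k ≤ ρ ^ k * q := by
  have hx : ∀ b ∈ S, ∃ x : ℕ, x * x = p * b + 1 := fun b hb =>
    let ⟨x, h⟩ := (hS b hb).2.1; ⟨x, h.symm⟩
  have hy : ∀ b ∈ S, ∃ y : ℕ, y * y = q * b + 1 := fun b hb =>
    let ⟨x, h⟩ := (hS b hb).2.2; ⟨x, h.symm⟩
  choose! x hx using hx
  choose! y hy using hy
  set m := q - p with hm
  have m0 : 0 < m := by omega
  have hxy : ∀ b ∈ S, x b ≤ y b := fun b hb => by
    have h1 := hx b hb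
    have h2 := hy b hb
    have : p * b ≤ q * b := Nat.mul_le_mul_right _ hpq.le
    exact Nat.mul_self_le_mul_self_iff.mp (by omega)
  set u : ℕ → ℕ := fun b => Nat.gcd m (y b - x b) with hu
  have hum : ∀ b ∈ S, u b ∣ m := fun b _ => Nat.gcd_dvd_left _ _
  have hu1 : ∀ b ∈ S, (u b : ℤ) ∣ (y b : ℤ) - x b := fun b hb => by
    rw [← Nat.cast_sub (hxy b hb)]
    exact Int.natCast_dvd_natCast.mpr (Nat.gcd_dvd_right _ _)
  have hv1 : ∀ b ∈ S, ((m / u b : ℕ) : ℤ) ∣ (y b : ℤ) + x b := fun b hb => by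
    have e : (y b - x b) * (y b + x b) = m * b := by
      have h1 := hx b hb
      have h2 := hy b hb
      zify [hxy b hb, hpq.le, hm] at h1 h2 ⊢
      linear_combination h2 - h1
    have u0 : 0 < u b := Nat.gcd_pos_of_pos_left _ m0
    have cop : Nat.Coprime (m / u b) ((y b - x b) / u b) := Nat.coprime_div_gcd_div_gcd u0
    have e2 : (y b - x b) / u b * (y b + x b) = m / u b * b := by
      apply Nat.eq_of_mul_eq_mul_left u0
      rw [← mul_assoc, ← mul_assoc, Nat.mul_div_cancel' (hum b hb),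
        Nat.mul_div_cancel' (Nat.gcd_dvd_right _ _), e]
    have : m / u b ∣ y b + x b := cop.dvd_of_dvd_mul_left ⟨b, e2⟩
    exact_mod_cast this
  have hrow : ∀ b ∈ S, (∏ c ∈ S, (Nat.gcd (u b) (u c) * Nat.gcd (m / u b) (m / u c))) ^ 2 *
      (p * q) ^ k ≤ m ^ 2 * (m ^ 2 * ρ) ^ k := by
    intro b hb
    rw [← mul_prod_erase S _ hb, Nat.gcd_self, Nat.gcd_self, Nat.mul_div_cancel' (hum b hb),
      mul_pow, mul_assoc]
    refine Nat.mul_le_mul_left _ ?_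
    have hc : (S.erase b).card = k := by rw [card_erase_of_mem hb, hk]; rfl
    rw [← hc, ← prod_pow, ← prod_const, ← prod_const, ← prod_mul_distrib]
    refine prod_le_prod' fun c hc => ?_
    have hcS := mem_of_mem_erase hc
    exact pair_le p q b c _ _ _ _ hp hpq (hS b hb).1 (hS c hcS).1 (ne_of_mem_erase hc).symm ρ
      (hρ c hcS b hb) (hρ b hb c hcS) (hx b hb) (hy b hb) (hx c hcS) (hy c hcS) _ _ _ _
      (hu1 b hb) (hv1 b hb) (hu1 c hcS) (hv1 c hcS)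
  have hall := prod_le_prod' hrow
  rw [prod_mul_distrib, prod_pow, prod_const, prod_const, hk] at hall
  have hg := gcd_prod S m m0 u hum
  rw [hk] at hg
  have h1 : m ^ ((k + 1) ^ 2) * ((p * q) ^ k) ^ (k + 1) ≤
      m ^ ((k + 1) ^ 2) * (m ^ (k + 1) * ρ ^ k) ^ (k + 1) := by
    refine ((Nat.mul_le_mul_right _ hg).trans hall).trans (le_of_eq ?_)
    ring
  have h2 := Nat.le_of_mul_le_mul_left h1 (by positivity)
  have h3 := (Nat.pow_le_pow_iff_left (by omega)).mp h2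
  have h4 : p ^ k * q ^ k ≤ ρ ^ k * q * q ^ k := by
    calc p ^ k * q ^ k = (p * q) ^ k := by rw [mul_pow]
      _ ≤ m ^ (k + 1) * ρ ^ k := h3
      _ ≤ q ^ (k + 1) * ρ ^ k := by gcongr; omega
      _ = _ := by ring
  exact Nat.le_of_mul_le_mul_right h4 (by have : 0 < q := by omega
                                          positivity)

end Pool.Agent.P.MP_719a5e_nt
end

-- part Pool.Agent.P.MP_719a5e_nt.Four
section

set_option autoImplicit false

namespace Pool.Agent.P.MP_719a5e_nt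

open Finset

theorem large (N : ℕ) : ∃ t : ℕ, ∀ (p q A : ℕ) (S : Finset ℕ), 0 < p → p < q → q < A →
    (∀ b ∈ S, A ≤ b ^ N ∧ IsSquare (p * b + 1) ∧ IsSquare (q * b + 1) ∧ IsSquare (A * b + 1)) →
    S.card ≤ t := by
  obtain ⟨E, H0, hT⟩ := tiny N
  set W := 8 * N * E + 1 with hW
  set k := W + 8 * N + 3 with hk
  refine ⟨7 + ((H0 + 3) ^ W + k * W), fun p q A S hp hpq hqA hS => ?_⟩
  rcases Nat.eq_zero_or_pos N with rfl | hN
  · have : S = ∅ := eq_empty_of_forall_notMem fun b hb => by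
      have := (hS b hb).1
      rw [pow_zero] at this
      omega
    rw [this]; simp
  have b0 : ∀ b ∈ S, 0 < b := fun b hb => by
    have := (hS b hb).1
    rcases Nat.eq_zero_or_pos b with rfl | h
    · rw [zero_pow hN.ne'] at this; omega
    · exact h
  rw [← card_filter_add_card_filter_not (s := S) (fun b => A ≤ b)]
  refine Nat.add_le_add ?_ ?_
  · refine main.2.1 ![p, q, A] ?_ hp _ fun b hb => ?_
    · refine Fin.strictMono_iff_lt_succ.mpr fun i => ?_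
      fin_cases i
      · exact hpq
      · exact hqA
    · obtain ⟨h1, h2⟩ := mem_filter.mp hb
      refine ⟨h2, fun i => ?_⟩
      fin_cases i
      · exact (hS b h1).2.1
      · exact (hS b h1).2.2.1
      · exact (hS b h1).2.2.2
  set S2 := S.filter (fun b => ¬A ≤ b) with hS2
  have m2 : ∀ b ∈ S2, b ∈ S ∧ b < A := fun b hb => by
    obtain ⟨h1, h2⟩ := mem_filter.mp hb
    exact ⟨h1, by omega⟩
  have ex : ∃ ρ : ℕ, A ≤ ρ ^ W := ⟨A, Nat.le_self_pow (by omega) _⟩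
  classical
  set ρ := Nat.find ex with hρ
  have r1 : A ≤ ρ ^ W := Nat.find_spec ex
  rcases lt_or_ge ρ (H0 + 3) with h | h
  · refine le_trans ?_ (Nat.le_add_right _ _)
    calc S2.card ≤ (range A).card := card_le_card fun b hb => mem_range.mpr (m2 b hb).2
      _ = A := card_range _
      _ ≤ ρ ^ W := r1
      _ ≤ _ := Nat.pow_le_pow_left h.le _
  have r2 : (ρ - 1) ^ W < A := by
    have := Nat.find_min ex (show ρ - 1 < ρ by omega)
    omega
  refine le_trans ?_ (Nat.le_add_left _ _)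
  have := card_le_mul_card_image_of_maps_to (s := S2) (t := range W) (f := Nat.log ρ)
    (fun b hb => mem_range.mpr (Nat.log_lt_of_lt_pow (b0 b (m2 b hb).1).ne'
      ((m2 b hb).2.trans_le r1))) k ?_
  · rwa [card_range] at this
  intro i _
  by_contra hc
  set F := S2.filter (fun b => Nat.log ρ b = i) with hF
  have mF : ∀ b ∈ F, b ∈ S ∧ Nat.log ρ b = i := fun b hb =>
    ⟨(m2 b (mem_filter.mp hb).1).1, (mem_filter.mp hb).2⟩
  have rat : ∀ b ∈ F, ∀ c ∈ F, c ≤ ρ * b := fun b hb c hc => by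
    have h1 := Nat.pow_log_le_self ρ (b0 b (mF b hb).1).ne'
    have h2 := Nat.lt_pow_succ_log_self (show 1 < ρ by omega) c
    rw [(mF b hb).2] at h1
    rw [(mF c hc).2, pow_succ] at h2
    calc c ≤ ρ * ρ ^ i := by rw [mul_comm]; exact h2.le
      _ ≤ _ := Nat.mul_le_mul_left _ h1
  obtain ⟨F', hF', hc'⟩ := exists_subset_card_eq (show k + 1 ≤ F.card by omega)
  have sg := sign q A (by omega) hqA F' ρ k
    (fun b hb => ⟨b0 b (mF b (hF' hb)).1, (hS b (mF b (hF' hb)).1).2.2⟩)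
    (fun b hb c hc => rat b (hF' hb) c (hF' hc)) hc'
  have q2 : q ≤ ρ ^ 2 := by
    refine (Nat.pow_le_pow_iff_left (show k ≠ 0 by omega)).mp (sg.trans ?_)
    calc ρ ^ k * A ≤ ρ ^ k * ρ ^ k :=
          Nat.mul_le_mul_left _ (r1.trans (Nat.pow_le_pow_right (by omega) (by omega)))
      _ = _ := by ring
  have ne : F.Nonempty := card_pos.mp (by omega)
  have hB := F.min'_mem ne
  set B := F.min' ne with hBd
  have AB : A ≤ B ^ (2 * N) :=
    (hS B (mF B hB).1).1.trans (Nat.pow_le_pow_right (b0 B (mF B hB).1) (by omega))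
  have ρ2 : ρ ≤ ρ ^ 2 := Nat.le_self_pow (by omega) _
  have := hT p q A (ρ ^ 2) B F hp hpq hqA (by omega) q2 ?_ AB fun b hb =>
    ⟨F.min'_le b hb, (rat B hB b hb).trans (Nat.mul_le_mul_right _ ρ2), (hS b (mF b hb).1).2⟩
  · omega
  refine (Nat.pow_le_pow_iff_left (show 2 * N ≠ 0 by omega)).mp (le_trans ?_ (r2.le.trans AB))
  have h3 : ρ ≤ (ρ - 1) ^ 2 := by
    obtain ⟨u, hu⟩ : ∃ u, ρ = u + 3 := ⟨ρ - 3, by omega⟩
    rw [hu, show u + 3 - 1 = u + 2 by omega]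
    nlinarith
  calc ((ρ ^ 2) ^ E) ^ (2 * N) = ρ ^ (4 * N * E) := by ring
    _ ≤ ((ρ - 1) ^ 2) ^ (4 * N * E) := Nat.pow_le_pow_left h3 _
    _ = (ρ - 1) ^ (8 * N * E) := by ring
    _ ≤ _ := Nat.pow_le_pow_right (by omega) (by omega)

theorem four : ∃ t : ℕ, ∀ A B : Finset ℕ, (∀ a ∈ A, 0 < a) →
    (∀ a ∈ A, ∀ b ∈ B, IsSquare (a * b + 1)) → 4 ≤ A.card → B.card ≤ t := by
  obtain ⟨t, ht⟩ := large 52
  refine ⟨t + 41, fun A B hA h h4 => ?_⟩
  set a := A.orderEmbOfCardLe h4 with ha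
  have am : ∀ i, a i ∈ A := fun i => A.orderEmbOfCardLe_mem h4 i
  have a01 : a 0 < a 1 := a.strictMono (by decide)
  have a12 : a 1 < a 2 := a.strictMono (by decide)
  have a23 : a 2 < a 3 := a.strictMono (by decide)
  rw [← card_filter_add_card_filter_not (s := B) (fun b => a 2 ≤ b ^ 52)]
  refine Nat.add_le_add (ht (a 0) (a 1) (a 2) _ (hA _ (am 0)) a01 a12 fun b hb => ?_) ?_
  · obtain ⟨h1, h2⟩ := mem_filter.mp hb
    exact ⟨h2, h _ (am 0) b h1, h _ (am 1) b h1, h _ (am 2) b h1⟩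
  by_contra hc
  have h41 : 41 ≤ ((B.filter (fun b => ¬a 2 ≤ b ^ 52)).erase 0).card := by
    have := pred_card_le_card_erase (s := B.filter (fun b => ¬a 2 ≤ b ^ 52)) (a := 0)
    omega
  obtain ⟨F, hF, hc'⟩ := exists_subset_card_eq h41
  have mF : ∀ b ∈ F, 0 < b ∧ b ∈ B ∧ b ^ 52 < a 2 := fun b hb => by
    obtain ⟨h1, h2⟩ := mem_erase.mp (hF hb)
    obtain ⟨h3, h4⟩ := mem_filter.mp h2
    exact ⟨by omega, h3, by omega⟩
  have h3 : 3 ≤ F.card := by omega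
  set c := F.orderEmbOfCardLe h3 with hcd
  have cm : ∀ i, c i ∈ F := fun i => F.orderEmbOfCardLe_mem h3 i
  have c01 : c 0 < c 1 := c.strictMono (by decide)
  have c12 : c 1 < c 2 := c.strictMono (by decide)
  have c0 := (mF _ (cm 0)).1
  choose r hr using fun (i : Fin 3) (j : Fin 4) =>
    root_of (c i) (a j) (by rw [mul_comm]; exact h _ (am j) _ (mF _ (cm i)).2.1)
  have e20 : ((a 3 : ℕ) : ℤ) < ((a 2 : ℕ) : ℤ) ^ 20 := by
    refine excl (c 0) (c 1) (c 2) (a 2) (a 3) (r 0 2) (r 1 2) (r 2 2) (r 0 3) (r 1 3) (r 2 3)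
      (by exact_mod_cast c0) (by exact_mod_cast c01) (by exact_mod_cast c12) ?_
      (by exact_mod_cast hA _ (am 3)) (hr _ _).1 (hr _ _).1 (hr _ _).1 (hr _ _).1 (hr _ _).1
      (hr _ _).1 (hr _ _).2 (hr _ _).2 (hr _ _).2 (hr _ _).2 (hr _ _).2 (hr _ _).2
    have : 2 ^ 33 * c 2 ^ 18 ≤ a 2 := by
      calc 2 ^ 33 * c 2 ^ 18 ≤ c 2 ^ 34 * c 2 ^ 18 := by
            refine Nat.mul_le_mul_right _ ?_
            calc 2 ^ 33 ≤ 2 ^ 34 := by norm_num
              _ ≤ _ := Nat.pow_le_pow_left (by omega) _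
        _ = c 2 ^ 52 := by ring
        _ ≤ _ := (mF _ (cm 2)).2.2.le
    exact_mod_cast this
  have e20' : a 3 < a 2 ^ 20 := by exact_mod_cast e20
  have ne : F.Nonempty := card_pos.mp (by omega)
  have hρ := F.max'_mem ne
  set ρ := F.max' ne with hρd
  have sg := sign (a 2) (a 3) (hA _ (am 2)) a23 F ρ 40
    (fun b hb => ⟨(mF b hb).1, h _ (am 2) b (mF b hb).2.1, h _ (am 3) b (mF b hb).2.1⟩)
    (fun b hb c hc => (F.le_max' c hc).trans (Nat.le_mul_of_pos_right _ (mF b hb).1)) hc'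
  have ρ0 := (mF ρ hρ).1
  have ρ1 : ρ ^ 2 ≤ a 2 := (Nat.pow_le_pow_right ρ0 (by norm_num)).trans (mF ρ hρ).2.2.le
  have : a 2 ^ 40 < a 2 ^ 40 := by
    calc a 2 ^ 40 ≤ ρ ^ 40 * a 3 := sg
      _ < ρ ^ 40 * a 2 ^ 20 := Nat.mul_lt_mul_of_pos_left e20' (by positivity)
      _ = (ρ ^ 2) ^ 20 * a 2 ^ 20 := by ring
      _ ≤ a 2 ^ 20 * a 2 ^ 20 := Nat.mul_le_mul_right _ (Nat.pow_le_pow_left ρ1 _)
      _ = _ := by ring
  exact lt_irrefl _ this

end Pool.Agent.P.MP_719a5e_nt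
end
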